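import Pool.Agent.LandauG.WDefs

/-!
# LandauG, module WPot: the Coulomb potential of a density of class `Clw`

Let `S = {w : ‖w‖ ≤ 2 * ang v}`.  On `S`: `u = S.indicator g` is integrable (`Clw.int_ball`), has
values in `[0, 1]` and `∫ u ≤ √(1 + 4 ang v²) Kw g ≤ 3 ang v Kw g` (as `g w = ang w * (g w / ang w)` and
`ang w ≤ √(1 + 4 ang v ^ 2) ≤ 3 * ang v` on `S`), so `int_inv` gives
`∫_S g w / ‖v - w‖ ≤ 7 r² + 3 ang v Kw g / r`.
Off `S`: `‖w‖ > 2 ang v ≥ 2 ‖v‖`, `‖w‖ > 2`, so `‖v - w‖ ≥ ‖w‖ / 2` and `ang w ≤ (3 / 2) ‖w‖` (as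
`1 ≤ ‖w‖² / 4`), hence `1 / ‖v - w‖ ≤ 2 / ‖w‖ ≤ 3 / ang w` and this part is at most `3 Kw g`.
-/

set_option autoImplicit false

namespace Pool.Agent.Landau

open MeasureTheory Set Filter Topology

private theorem pot_core (g : V → ℝ) (hg : Clw g) (v : V) (r : ℝ) (hr : 0 < r) :
    Integrable (fun w => g w / ‖v - w‖) ∧
      ∫ w, g w / ‖v - w‖ ≤ 7 * r ^ 2 + 3 * ang v * Kw g / r + 3 * Kw g := by
  have ha := one_le_ang v
  have ha2 := ang_sq v
  set S : Set V := {w : V | ‖w‖ ≤ 2 * ang v} with hS
  have hm : MeasurableSet S := measurableSet_le measurable_norm measurable_const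
  set u : V → ℝ := S.indicator g with hu
  have hui : Integrable u := (integrable_indicator_iff hm).2 (hg.int_ball _)
  have hu0 : ∀ w, 0 ≤ u w := fun w => indicator_nonneg (fun w _ => hg.nonneg w) w
  have hu1 : ∀ w, u w ≤ 1 := fun w =>
    (indicator_le_self' (fun w _ => hg.nonneg w) w).trans (hg.le_one w)
  obtain ⟨k1, k2⟩ := int_inv u hui hu0 hu1 v r hr
  have hq0 : ∀ w, 0 ≤ g w / ang w := fun w => div_nonneg (hg.nonneg w) (ang_pos w).le
  have hum : ∫ w, u w ≤ 3 * ang v * Kw g := by
    have hi : Integrable (fun w => 3 * ang v * (g w / ang w)) := hg.int.const_mul _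
    calc ∫ w, u w ≤ ∫ w, 3 * ang v * (g w / ang w) := by
          refine integral_mono hui hi (fun w => ?_)
          by_cases hw : w ∈ S
          · have h1 : u w = g w := indicator_of_mem hw g
            have hw' : ‖w‖ ≤ 2 * ang v := hw
            have h2 : ang w ≤ 3 * ang v := by
              have h3 := ang_le w
              linarith
            have h4 := ang_pos w
            have h5 : g w = ang w * (g w / ang w) := by field_simp
            show u w ≤ 3 * ang v * (g w / ang w)
            calc u w = ang w * (g w / ang w) := h1.trans h5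
              _ ≤ 3 * ang v * (g w / ang w) := mul_le_mul_of_nonneg_right h2 (hq0 w)
          · have h1 : u w = 0 := indicator_of_notMem hw g
            show u w ≤ 3 * ang v * (g w / ang w)
            rw [h1]
            exact mul_nonneg (by linarith) (hq0 w)
      _ = 3 * ang v * Kw g := by rw [integral_const_mul]; rfl
  have hi3 : Integrable (fun w => 3 * (g w / ang w)) := hg.int.const_mul _
  have hsum : Integrable (fun w => u w / ‖v - w‖ + 3 * (g w / ang w)) := k1.add hi3
  have hle : ∀ w : V, g w / ‖v - w‖ ≤ u w / ‖v - w‖ + 3 * (g w / ang w) := by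
    intro w
    by_cases hw : w ∈ S
    · have h1 : u w = g w := indicator_of_mem hw g
      rw [h1]
      have := hq0 w
      linarith
    · have h1 : u w = 0 := indicator_of_notMem hw g
      rw [h1, zero_div, zero_add]
      have hw' : 2 * ang v < ‖w‖ := by
        by_contra hc
        push Not at hc
        exact hw hc
      have hnv := norm_le_ang v
      have h2 : ‖w‖ / 2 ≤ ‖v - w‖ := by
        have h3 := norm_sub_norm_le w v
        rw [norm_sub_rev w v] at h3
        linarith
      have h4 : ang w ≤ 3 / 2 * ‖w‖ := by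
        have h5 := ang_le w
        linarith
      have h6 := ang_pos w
      have h7 : ang w ≤ 3 * ‖v - w‖ := by linarith
      have h8 : 0 < ‖v - w‖ := by linarith
      rw [← mul_div_assoc, div_le_div_iff₀ h8 h6]
      have h9 := mul_le_mul_of_nonneg_left h7 (hg.nonneg w)
      linarith
  have hint : Integrable (fun w => g w / ‖v - w‖) := by
    refine hsum.mono' ?_ (Eventually.of_forall fun w => ?_)
    · have hmm : Measurable fun w : V => ‖v - w‖⁻¹ :=
        (measurable_norm.comp (measurable_const.sub measurable_id)).inv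
      exact hg.cont.aestronglyMeasurable.mul hmm.aestronglyMeasurable
    · rw [Real.norm_eq_abs, abs_of_nonneg (div_nonneg (hg.nonneg w) (norm_nonneg _))]
      exact hle w
  refine ⟨hint, ?_⟩
  have hK : ∫ w, 3 * (g w / ang w) = 3 * Kw g := by rw [integral_const_mul]; rfl
  calc ∫ w, g w / ‖v - w‖ ≤ ∫ w, (u w / ‖v - w‖ + 3 * (g w / ang w)) :=
        integral_mono hint hsum hle
    _ = (∫ w, u w / ‖v - w‖) + 3 * Kw g := by
        rw [integral_add k1 hi3, hK]
    _ ≤ 7 * r ^ 2 + (∫ w, u w) / r + 3 * Kw g := by linarith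
    _ ≤ 7 * r ^ 2 + 3 * ang v * Kw g / r + 3 * Kw g := by
        have := div_le_div_of_nonneg_right hum hr.le
        linarith

theorem pot_int (g : V → ℝ) (hg : Clw g) (v : V) : Integrable (fun w => g w / ‖v - w‖) := by
  exact (pot_core g hg v 1 one_pos).1

theorem pot_bound (g : V → ℝ) (hg : Clw g) (v : V) (r : ℝ) (hr : 0 < r) :
    ∫ w, g w / ‖v - w‖ ≤ 7 * r ^ 2 + 3 * ang v * Kw g / r + 3 * Kw g := by
  exact (pot_core g hg v r hr).2

end Pool.Agent.Landau
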