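import Pool.Agent.LandauG.WBars

/-!
# LandauG, module WWeak: symmetric weak form for densities of class `Clw`

This is `Landau/Weak0.lean` and `Landau/Weak1.lean` (please copy from there) for `Clw` instead of `Cls`:
`abar g i j` times a continuous function `F` with compact support is integrable by
`(bars_int_aW ..).integral_prod_left`, the same for `bbar`, and the integrations by parts are
`bar_ibp_aW`, `bar_ibp_bW` (use them with `u = g`: `hg.cont.aestronglyMeasurable`, `hg.int`).

Weak form (all sums over `i, j`): for `ζ` of class `C^1` with compact support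
`∫ ζ QL g = - ∑ ∫ abar_ij ∂_i ζ ∂_j g + ∑ ∫ bbar_i g ∂_i ζ`; then with `ζ = φ` and `bar_ibp_aW` for
`G = g * pd i φ`: `∫ φ QL g = 2 ∑ ∫ bbar_i g ∂_i φ + ∑ ∫ abar_ij g ∂_j ∂_i φ`; Fubini and symmetrisation in
`(v, w)` (`aK_neg`, `bK_neg`, `integral_prod_swap`).
-/

set_option autoImplicit false

namespace Pool.Agent.Landau

open MeasureTheory Set Filter Topology

theorem ww_abar_symm (u : V → ℝ) (i j : Fin 3) (v : V) : abar u i j v = abar u j i v := by
  unfold abar
  refine integral_congr_ae (Eventually.of_forall fun w => ?_)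
  simp only []
  rw [aK_symm i j]

theorem ww_prod_a (g : V → ℝ) (hg : Clw g) {F : V → ℝ} (hF : Continuous F)
    (hc : HasCompactSupport F) (i j : Fin 3) :
    Integrable (fun p : V × V => aK i j (p.1 - p.2) * g p.2 * F p.1)
      ((volume : Measure V).prod (volume : Measure V)) :=
  bars_int_aW g hg.cont.aestronglyMeasurable hg.int F hF hc i j

theorem ww_prod_b (g : V → ℝ) (hg : Clw g) {F : V → ℝ} (hF : Continuous F)
    (hc : HasCompactSupport F) (i : Fin 3) :
    Integrable (fun p : V × V => bK i (p.1 - p.2) * g p.2 * F p.1)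
      ((volume : Measure V).prod (volume : Measure V)) :=
  bars_int_bW g hg.cont.aestronglyMeasurable hg.int F hF hc i

theorem ww_int_a (g : V → ℝ) (hg : Clw g) (i j : Fin 3) (h : V → ℝ) (hh : Continuous h)
    (hc : HasCompactSupport h) : Integrable (fun v => abar g i j v * h v) := by
  have h1 := (ww_prod_a g hg hh hc i j).integral_prod_left
  refine h1.congr (Eventually.of_forall fun v => ?_)
  unfold abar
  simp only []
  rw [integral_mul_const]

theorem ww_int_b (g : V → ℝ) (hg : Clw g) (i : Fin 3) (h : V → ℝ) (hh : Continuous h)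
    (hc : HasCompactSupport h) : Integrable (fun v => bbar g i v * h v) := by
  have h1 := (ww_prod_b g hg hh hc i).integral_prod_left
  refine h1.congr (Eventually.of_forall fun v => ?_)
  unfold bbar
  simp only []
  rw [integral_mul_const]

theorem ww_fub_b {g F : V → ℝ} (hg : Clw g) (hF : Continuous F) (hc : HasCompactSupport F)
    (i : Fin 3) : ∫ v, bbar g i v * F v =
      ∫ p : V × V, bK i (p.1 - p.2) * g p.2 * F p.1 ∂(volume.prod volume) := by
  rw [integral_prod _ (ww_prod_b g hg hF hc i)]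
  refine integral_congr_ae (Eventually.of_forall fun v => ?_)
  unfold bbar
  simp only []
  rw [integral_mul_const]

theorem ww_fub_a {g F : V → ℝ} (hg : Clw g) (hF : Continuous F) (hc : HasCompactSupport F)
    (i j : Fin 3) : ∫ v, abar g i j v * F v =
      ∫ p : V × V, aK i j (p.1 - p.2) * g p.2 * F p.1 ∂(volume.prod volume) := by
  rw [integral_prod _ (ww_prod_a g hg hF hc i j)]
  refine integral_congr_ae (Eventually.of_forall fun v => ?_)
  unfold abar
  simp only []
  rw [integral_mul_const]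

theorem ww_c1 {g : V → ℝ} (hg : Clw g) (i : Fin 3) : ContDiff ℝ 1 (pd i g) :=
  contDiff_one_of_smooth (smooth_pd hg.smooth i)

theorem ww_cpp {g : V → ℝ} (hg : Clw g) (i j : Fin 3) : Continuous (pd i (pd j g)) :=
  continuous_pd (ww_c1 hg j) i

theorem ww_expand (g ζ : V → ℝ) : (fun v => ζ v * QL g v) = fun v =>
    (∑ i : Fin 3, ∑ j : Fin 3, abar g i j v * (ζ v * pd i (pd j g) v)) + ζ v * g v ^ 2 := by
  funext v
  unfold QL
  rw [mul_add, Finset.mul_sum]
  congr 1
  refine Finset.sum_congr rfl fun i _ => ?_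
  rw [Finset.mul_sum]
  refine Finset.sum_congr rfl fun j _ => ?_
  ring

theorem QL_weakW (g : V → ℝ) (hg : Clw g) (ζ : V → ℝ) (hζ : ContDiff ℝ 1 ζ)
    (hc : HasCompactSupport ζ) :
    ∫ v, ζ v * QL g v =
      -(∑ i : Fin 3, ∑ j : Fin 3, ∫ v, abar g i j v * (pd i ζ v * pd j g v)) +
        ∑ i : Fin 3, ∫ v, bbar g i v * (g v * pd i ζ v) := by
  have hg1 : ContDiff ℝ 1 g := contDiff_one_of_smooth hg.smooth
  have hζd : ∀ v, DifferentiableAt ℝ ζ v := fun v => hζ.differentiable (by norm_num) v
  have hgd : ∀ v, DifferentiableAt ℝ g v := fun v => hg1.differentiable (by norm_num) v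
  have hcz : ∀ i, Continuous (pd i ζ) := fun i => continuous_pd hζ i
  have hcg : ∀ i, Continuous (pd i g) := fun i => continuous_pd hg1 i
  -- the three families of integrable functions
  have I1 : ∀ i j, Integrable (fun v => abar g i j v * (ζ v * pd i (pd j g) v)) := fun i j =>
    ww_int_a g hg i j _ (hζ.continuous.mul (ww_cpp hg i j)) hc.mul_right
  have I1' : ∀ i j, Integrable (fun v => abar g i j v * (ζ v * pd j (pd i g) v)) := fun i j =>
    ww_int_a g hg i j _ (hζ.continuous.mul (ww_cpp hg j i)) hc.mul_right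
  have I2 : ∀ i j, Integrable (fun v => abar g i j v * (pd j ζ v * pd i g v)) := fun i j =>
    ww_int_a g hg i j _ ((hcz j).mul (hcg i)) (compact_pd hc j).mul_right
  have I3 : ∀ i, Integrable (fun v => bbar g i v * (ζ v * pd i g v)) := fun i =>
    ww_int_b g hg i _ (hζ.continuous.mul (hcg i)) hc.mul_right
  have I4 : ∀ i, Integrable (fun v => bbar g i v * (g v * pd i ζ v)) := fun i =>
    ww_int_b g hg i _ (hg.cont.mul (hcz i)) (compact_pd hc i).mul_left
  have E0 : ∫ v, ζ v * QL g v = (∑ i : Fin 3, ∑ j : Fin 3,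
      ∫ v, abar g i j v * (ζ v * pd i (pd j g) v)) + ∫ v, ζ v * g v ^ 2 := by
    rw [ww_expand, integral_add, integral_finsetSum]
    · congr 1
      refine Finset.sum_congr rfl fun i _ => ?_
      rw [integral_finsetSum]
      exact fun j _ => I1 i j
    · exact fun i _ => integrable_finsetSum _ fun j _ => I1 i j
    · exact integrable_finsetSum _ fun i _ => integrable_finsetSum _ fun j _ => I1 i j
    · exact (hζ.continuous.mul (hg.cont.pow 2)).integrable_of_hasCompactSupport hc.mul_right
  have E1 : (∑ i : Fin 3, ∑ j : Fin 3, ∫ v, abar g i j v * (ζ v * pd i (pd j g) v)) =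
      ∑ i : Fin 3, ∑ j : Fin 3, ∫ v, abar g i j v * (ζ v * pd j (pd i g) v) := by
    rw [Finset.sum_comm]
    refine Finset.sum_congr rfl fun i _ => Finset.sum_congr rfl fun j _ => ?_
    refine integral_congr_ae (Eventually.of_forall fun v => ?_)
    simp only []
    rw [ww_abar_symm g j i]
  have E2 : ∀ i : Fin 3, (∑ j : Fin 3, ∫ v, abar g i j v * (ζ v * pd j (pd i g) v)) =
      -(∑ j : Fin 3, ∫ v, abar g i j v * (pd j ζ v * pd i g v)) -
        ∫ v, bbar g i v * (ζ v * pd i g v) := by
    intro i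
    have h := bar_ibp_aW g hg.cont.aestronglyMeasurable hg.int (fun v => ζ v * pd i g v) (hζ.mul (ww_c1 hg i))
      hc.mul_right i
    have h2 : ∀ j : Fin 3, ∫ v, abar g i j v * pd j (fun v => ζ v * pd i g v) v =
        (∫ v, abar g i j v * (ζ v * pd j (pd i g) v)) +
          ∫ v, abar g i j v * (pd j ζ v * pd i g v) := by
      intro j
      rw [← integral_add (I1' i j) (I2 i j)]
      refine integral_congr_ae (Eventually.of_forall fun v => ?_)
      simp only []
      rw [pd_mul (hζd v) ((ww_c1 hg i).differentiable (by norm_num) v) j]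
      ring
    rw [Finset.sum_congr rfl fun j _ => h2 j, Finset.sum_add_distrib] at h
    linarith
  have E3 : (∑ i : Fin 3, ∫ v, bbar g i v * (ζ v * pd i g v)) =
      (∫ v, ζ v * g v ^ 2) - ∑ i : Fin 3, ∫ v, bbar g i v * (g v * pd i ζ v) := by
    have h := bar_ibp_bW g hg.cont.aestronglyMeasurable hg.int (fun v => ζ v * g v) (hζ.mul hg1) hc.mul_right
    have h2 : ∀ j : Fin 3, ∫ v, bbar g j v * pd j (fun v => ζ v * g v) v =
        (∫ v, bbar g j v * (ζ v * pd j g v)) + ∫ v, bbar g j v * (g v * pd j ζ v) := by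
      intro j
      rw [← integral_add (I3 j) (I4 j)]
      refine integral_congr_ae (Eventually.of_forall fun v => ?_)
      simp only []
      rw [pd_mul (hζd v) (hgd v) j]
      ring
    rw [Finset.sum_congr rfl fun j _ => h2 j, Finset.sum_add_distrib] at h
    have h3 : ∫ v, g v * (ζ v * g v) = ∫ v, ζ v * g v ^ 2 := by
      refine integral_congr_ae (Eventually.of_forall fun v => ?_)
      simp only []
      ring
    linarith
  have E4 : (∑ i : Fin 3, ∑ j : Fin 3, ∫ v, abar g i j v * (pd i ζ v * pd j g v)) =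
      ∑ i : Fin 3, ∑ j : Fin 3, ∫ v, abar g i j v * (pd j ζ v * pd i g v) := by
    rw [Finset.sum_comm]
    refine Finset.sum_congr rfl fun i _ => Finset.sum_congr rfl fun j _ => ?_
    refine integral_congr_ae (Eventually.of_forall fun v => ?_)
    simp only []
    rw [ww_abar_symm g j i]
  rw [E0, E1, Finset.sum_congr rfl fun i _ => E2 i, Finset.sum_sub_distrib,
    Finset.sum_neg_distrib, E3, E4]
  ring

theorem weak_symW (g : V → ℝ) (hg : Clw g) (φ : V → ℝ) (hφ : ContDiff ℝ (⊤ : ℕ∞) φ)
    (hc : HasCompactSupport φ) :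
    Integrable (fun p : V × V => g p.1 * g p.2 * Kf φ p.1 p.2) (volume.prod volume) ∧
      ∫ v, φ v * QL g v = ∫ p : V × V, g p.1 * g p.2 * Kf φ p.1 p.2 ∂(volume.prod volume) := by
  -- the test functions
  have hgc : Continuous g := hg.cont
  have hp1 : ∀ i, ContDiff ℝ (⊤ : ℕ∞) (pd i φ) := fun i => smooth_pd hφ i
  have hp2 : ∀ i j, ContDiff ℝ (⊤ : ℕ∞) (pd j (pd i φ)) := fun i j => smooth_pd (hp1 i) j
  have hF1 : ∀ i, Continuous (fun v => g v * pd i φ v) := fun i => hgc.mul (hp1 i).continuous
  have hF2 : ∀ i j, Continuous (fun v => g v * pd j (pd i φ) v) := fun i j =>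
    hgc.mul (hp2 i j).continuous
  have hF3 : ∀ i j, Continuous (fun v => pd i φ v * pd j g v) := fun i j =>
    (hp1 i).continuous.mul (smooth_pd hg.smooth j).continuous
  have hc1 : ∀ i, HasCompactSupport (fun v => g v * pd i φ v) := fun i =>
    (compact_pd hc i).mul_left
  have hc2 : ∀ i j, HasCompactSupport (fun v => g v * pd j (pd i φ) v) := fun i j =>
    (compact_pd (compact_pd hc i) j).mul_left
  have hc3 : ∀ i j, HasCompactSupport (fun v => pd i φ v * pd j g v) := fun i j =>
    (compact_pd hc i).mul_right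
  -- integration by parts
  have hibp : ∀ i, -(∑ j : Fin 3, ∫ v, abar g i j v * (pd i φ v * pd j g v)) =
      (∫ v, bbar g i v * (g v * pd i φ v)) +
        ∑ j : Fin 3, ∫ v, abar g i j v * (g v * pd j (pd i φ) v) := by
    intro i
    have h1 := bar_ibp_aW g hg.cont.aestronglyMeasurable hg.int (fun v => g v * pd i φ v)
      (contDiff_one_of_smooth (hg.smooth.mul (hp1 i))) (hc1 i) i
    have h2 : ∀ j : Fin 3, ∫ v, abar g i j v * pd j (fun v => g v * pd i φ v) v =
        (∫ v, abar g i j v * (g v * pd j (pd i φ) v)) +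
          ∫ v, abar g i j v * (pd i φ v * pd j g v) := by
      intro j
      rw [← integral_add (ww_int_a g hg i j _ (hF2 i j) (hc2 i j))
        (ww_int_a g hg i j _ (hF3 i j) (hc3 i j))]
      refine integral_congr_ae (Eventually.of_forall fun v => ?_)
      simp only []
      rw [pd_mul (differentiable_of_smooth hg.smooth v)
        (differentiable_of_smooth (hp1 i) v) j]
      ring
    rw [Finset.sum_congr rfl fun j _ => h2 j, Finset.sum_add_distrib] at h1
    linarith
  -- the nonsymmetric kernel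
  obtain ⟨Ψ, hΨ⟩ : ∃ Ψ : V × V → ℝ, Ψ = fun p => 2 * ∑ i : Fin 3,
      (bK i (p.1 - p.2) * g p.2 * (g p.1 * pd i φ p.1)) +
      ∑ i : Fin 3, ∑ j : Fin 3, (aK i j (p.1 - p.2) * g p.2 * (g p.1 * pd j (pd i φ) p.1)) :=
    ⟨_, rfl⟩
  have hIb : ∀ i, Integrable (fun p : V × V => bK i (p.1 - p.2) * g p.2 *
      (g p.1 * pd i φ p.1)) (volume.prod volume) := fun i =>
    ww_prod_b g hg (F := fun v => g v * pd i φ v) (hF1 i) (hc1 i) i
  have hIa : ∀ i j, Integrable (fun p : V × V => aK i j (p.1 - p.2) * g p.2 *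
      (g p.1 * pd j (pd i φ) p.1)) (volume.prod volume) := fun i j =>
    ww_prod_a g hg (F := fun v => g v * pd j (pd i φ) v) (hF2 i j) (hc2 i j) i j
  have hIb' : Integrable (fun p : V × V => ∑ i : Fin 3, (bK i (p.1 - p.2) * g p.2 *
      (g p.1 * pd i φ p.1))) (volume.prod volume) := integrable_finsetSum _ fun i _ => hIb i
  have hIa' : Integrable (fun p : V × V => ∑ i : Fin 3, ∑ j : Fin 3,
      (aK i j (p.1 - p.2) * g p.2 * (g p.1 * pd j (pd i φ) p.1))) (volume.prod volume) :=
    integrable_finsetSum _ fun i _ => integrable_finsetSum _ fun j _ => hIa i j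
  have hIΨ : Integrable Ψ (volume.prod volume) := by
    rw [hΨ]
    exact (hIb'.const_mul 2).add hIa'
  have hmain : ∫ v, φ v * QL g v = ∫ p, Ψ p ∂(volume.prod volume) := by
    rw [QL_weakW g hg φ (contDiff_one_of_smooth hφ) hc, ← Finset.sum_neg_distrib,
      Finset.sum_congr rfl fun i _ => hibp i, Finset.sum_add_distrib, hΨ,
      integral_add (hIb'.const_mul 2) hIa', integral_const_mul,
      integral_finsetSum _ (fun i _ => hIb i),
      integral_finsetSum _ (fun i _ => integrable_finsetSum _ fun j _ => hIa i j)]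
    have h1 : ∀ i : Fin 3, ∫ p : V × V, bK i (p.1 - p.2) * g p.2 * (g p.1 * pd i φ p.1)
        ∂(volume.prod volume) = ∫ v, bbar g i v * (g v * pd i φ v) := fun i =>
      (ww_fub_b hg (hF1 i) (hc1 i) i).symm
    have h2 : ∀ i : Fin 3, ∫ p : V × V, ∑ j : Fin 3, (aK i j (p.1 - p.2) * g p.2 *
        (g p.1 * pd j (pd i φ) p.1)) ∂(volume.prod volume) =
        ∑ j : Fin 3, ∫ v, abar g i j v * (g v * pd j (pd i φ) v) := by
      intro i
      rw [integral_finsetSum _ (fun j _ => hIa i j)]
      exact Finset.sum_congr rfl fun j _ => (ww_fub_a hg (hF2 i j) (hc2 i j) i j).symm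
    rw [Finset.sum_congr rfl fun i _ => h1 i, Finset.sum_congr rfl fun i _ => h2 i]
    ring
  -- symmetrisation
  have hpt : ∀ p : V × V, g p.1 * g p.2 * Kf φ p.1 p.2 = (1 / 2) * (Ψ p + Ψ p.swap) := by
    rintro ⟨v, w⟩
    rw [hΨ]
    unfold Kf
    simp only [Prod.swap_prod_mk]
    rw [← neg_sub v w]
    simp only [bK_neg, aK_neg, Fin.sum_univ_three, aK_symm 1 0, aK_symm 2 0, aK_symm 2 1]
    ring
  have hIs : Integrable (fun p : V × V => Ψ p.swap) (volume.prod volume) := hIΨ.swap
  have hints : ∫ p : V × V, Ψ p.swap ∂(volume.prod volume) = ∫ p, Ψ p ∂(volume.prod volume) :=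
    integral_prod_swap Ψ
  constructor
  · simp only [hpt]
    exact (hIΨ.add hIs).const_mul _
  · simp only [hpt]
    rw [integral_const_mul, integral_add hIΨ hIs, hints, hmain]
    ring

end Pool.Agent.Landau
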