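import Pool.Agent.LandauG.WDefs

/-!
# LandauG, module WInt: integrals of `g / ang ^ 2` and `g / ang ^ 3`

Let `ρ = √(1 + Kw g) ≥ 1`.  Both functions are at most `g / ang`, hence integrable.
`∫ g / ang ^ 2 ≤ ∫_{‖v‖ ≤ ρ} 1 / ‖v‖ ^ 2 + (1 / ρ) Kw g` (as `g ≤ 1`, `ang ≥ ‖v‖`, and `1 / ang ^ 2 ≤ (1 / ρ) / ang` for
`‖v‖ > ρ`), and `∫_{‖v‖ ≤ ρ} 1 / ‖v‖ ^ 2 = 4 π ρ ≤ 13 ρ` (polar coordinates; or from `int_inv_sq` applied to the
indicator of the ball of radius `ρ`, `v = 0`, `r = ρ`: at most `13 ρ + (∫_{‖v‖ ≤ ρ} 1) / ρ ^ 2`, and the volume of the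
ball is `(4 / 3) π ρ ^ 3 ≤ 5 ρ ^ 3`); `Kw g ≤ ρ ^ 2`.  So `∫ g / ang ^ 2 ≤ 20 ρ`.
`∫ g / ang ^ 3 ≤ ∫_{‖v‖ ≤ ρ} 1 / ang ^ 3 + Kw g / ρ ^ 2`, and `∫_{‖v‖ ≤ ρ} 1 / ang ^ 3 = 4 π ∫_0^ρ r ^ 2 (1 + r ^ 2)^(-3/2) dr
≤ 4 π ∫_0^ρ 1 / (1 + r) * 3 dr`-like `≤ C (1 + log ρ)` (as `r ^ 2 (1 + r ^ 2)^(-3/2) ≤ 1 / √(1 + r ^ 2) ≤ 2 / (1 + r)`;
polar coordinates: `integral_fun_norm_addHaar`, see `Landau/KInt.lean`; or dyadic annuli), and `log ρ = (1/2) log (1 + Kw g)`.
-/

set_option autoImplicit false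

namespace Pool.Agent.Landau

open MeasureTheory Set Filter Topology

namespace WIntAux

/-- truncated kernel of order three -/
noncomputable def lker (r : ℝ) (y : ℝ) : ℝ := (Iio r).indicator (fun y => 1 / (1 + y) ^ 3) y

theorem lker_eqOn (r : ℝ) :
    EqOn (fun y : ℝ => y ^ 2 * lker r y)
      ((Ioo 0 r).indicator fun y : ℝ => y ^ 2 / (1 + y) ^ 3) (Ioi 0) := by
  intro y hy
  have hy' : (0 : ℝ) < y := hy
  by_cases h : y < r
  · simp only [lker]
    rw [indicator_of_mem (show y ∈ Iio r from h), indicator_of_mem (show y ∈ Ioo 0 r from ⟨hy', h⟩)]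
    ring
  · simp only [lker]
    rw [indicator_of_notMem (show y ∉ Iio r from h),
      indicator_of_notMem (show y ∉ Ioo 0 r from fun hh => h hh.2), mul_zero]

theorem lker_cont (r : ℝ) (hr : 0 < r) :
    IntervalIntegrable (fun y : ℝ => y ^ 2 / (1 + y) ^ 3) volume 0 r := by
  apply ContinuousOn.intervalIntegrable
  intro y hy
  rw [uIcc_of_le hr.le] at hy
  have h1 : (1 + y) ^ 3 ≠ 0 := by
    have := hy.1
    positivity
  exact ((continuousAt_id.pow 2).div ((continuousAt_const.add continuousAt_id).pow 3)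
    h1).continuousWithinAt

theorem lker_int (r : ℝ) (hr : 0 < r) :
    Integrable (fun z : V => lker r ‖z‖) ∧
      ∫ z : V, lker r ‖z‖ = 4 * Real.pi * ∫ y in (0 : ℝ)..r, y ^ 2 / (1 + y) ^ 3 := by
  have hfr : Module.finrank ℝ V = 3 := by simp
  constructor
  · rw [integrable_fun_norm_addHaar volume (f := lker r), hfr]
    simp only [smul_eq_mul]
    rw [show 3 - 1 = 2 from rfl, integrableOn_congr_fun (lker_eqOn r) measurableSet_Ioi]
    refine Integrable.integrableOn ?_
    rw [integrable_indicator_iff measurableSet_Ioo]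
    have h := lker_cont r hr
    rw [intervalIntegrable_iff_integrableOn_Ioc_of_le hr.le] at h
    exact h.mono_set Ioo_subset_Ioc_self
  · rw [integral_fun_norm_addHaar volume (lker r), hfr]
    simp only [smul_eq_mul, nsmul_eq_mul]
    rw [show 3 - 1 = 2 from rfl, setIntegral_congr_fun measurableSet_Ioi (lker_eqOn r),
      setIntegral_indicator measurableSet_Ioo,
      show Ioi (0 : ℝ) ∩ Ioo 0 r = Ioo 0 r from inter_eq_right.2 Ioo_subset_Ioi_self,
      ← integral_Ioc_eq_integral_Ioo, ← intervalIntegral.integral_of_le hr.le]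
    have hvol : (volume : Measure V).real (Metric.ball 0 1) = Real.pi * 4 / 3 := by
      rw [Measure.real, EuclideanSpace.volume_ball_fin_three]
      rw [ENNReal.toReal_mul, ENNReal.toReal_pow, ENNReal.toReal_ofReal (by norm_num),
        ENNReal.toReal_ofReal (by positivity)]
      ring
    rw [hvol]
    push_cast
    ring

theorem lker_bound (r : ℝ) (hr : 0 < r) : ∫ z : V, lker r ‖z‖ ≤ 13 * Real.log (1 + r) := by
  rw [(lker_int r hr).2]
  have h1 : ∫ y in (0 : ℝ)..r, y ^ 2 / (1 + y) ^ 3 ≤ ∫ y in (0 : ℝ)..r, 1 / (1 + y) := by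
    refine intervalIntegral.integral_mono_on hr.le (lker_cont r hr) ?_ ?_
    · apply ContinuousOn.intervalIntegrable
      intro y hy
      rw [uIcc_of_le hr.le] at hy
      have h1 : (1 + y) ≠ 0 := by
        have := hy.1
        positivity
      exact (continuousAt_const.div (continuousAt_const.add continuousAt_id)
        h1).continuousWithinAt
    · intro y hy
      have hy0 := hy.1
      have h2 : 0 < 1 + y := by linarith
      rw [div_le_div_iff₀ (by positivity) h2]
      nlinarith [mul_nonneg hy0 hy0, mul_nonneg (mul_nonneg hy0 hy0) hy0]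
  have h2 : ∫ y in (0 : ℝ)..r, 1 / (1 + y) = Real.log (1 + r) := by
    have h3 : ∀ y ∈ uIcc (0 : ℝ) r, HasDerivAt (fun y => Real.log (1 + y)) (1 / (1 + y)) y := by
      intro y hy
      rw [uIcc_of_le hr.le] at hy
      have h4 : (1 + y) ≠ 0 := by
        have := hy.1
        positivity
      exact ((hasDerivAt_id y).const_add 1).log h4
    rw [intervalIntegral.integral_eq_sub_of_hasDerivAt h3]
    · simp
    · apply ContinuousOn.intervalIntegrable
      intro y hy
      rw [uIcc_of_le hr.le] at hy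
      have h1 : (1 + y) ≠ 0 := by
        have := hy.1
        positivity
      exact (continuousAt_const.div (continuousAt_const.add continuousAt_id)
        h1).continuousWithinAt
  rw [h2] at h1
  have h5 := Real.pi_lt_d2
  have h6 : 0 ≤ Real.log (1 + r) := Real.log_nonneg (by linarith)
  have h7 : 4 * Real.pi * ∫ y in (0 : ℝ)..r, y ^ 2 / (1 + y) ^ 3
      ≤ 4 * Real.pi * Real.log (1 + r) :=
    mul_le_mul_of_nonneg_left h1 (by positivity)
  nlinarith

theorem half_le_ang (v : V) : (1 + ‖v‖) / 2 ≤ ang v := by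
  apply Real.le_sqrt_of_sq_le
  nlinarith [sq_nonneg (‖v‖ - 1), sq_nonneg ‖v‖]

end WIntAux

open WIntAux

theorem int_ang23 : ∃ C : ℝ, 0 < C ∧ ∀ g : V → ℝ, Clw g →
    Integrable (fun v => g v / ang v ^ 2) ∧ Integrable (fun v => g v / ang v ^ 3) ∧
    ∫ v, g v / ang v ^ 2 ≤ C * Real.sqrt (1 + Kw g) ∧
    ∫ v, g v / ang v ^ 3 ≤ C * (1 + Real.log (1 + Kw g)) := by
  refine ⟨200, by norm_num, fun g hg => ?_⟩
  have hK : 0 ≤ Kw g := integral_nonneg fun v => div_nonneg (hg.nonneg v) (ang_pos v).le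
  have hgc : Continuous g := hg.smooth.continuous
  have hmeas : ∀ k : ℕ, AEStronglyMeasurable (fun v => g v / ang v ^ k) (volume : Measure V) := by
    intro k
    exact (hgc.div (continuous_ang.pow k) fun v => (pow_pos (ang_pos v) k).ne').aestronglyMeasurable
  have hbd : ∀ k : ℕ, 1 ≤ k → Integrable (fun v => g v / ang v ^ k) := by
    intro k hk
    refine hg.int.mono' (hmeas k) (Eventually.of_forall fun v => ?_)
    rw [Real.norm_eq_abs, abs_of_nonneg (div_nonneg (hg.nonneg v) (pow_pos (ang_pos v) k).le)]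
    refine div_le_div_of_nonneg_left (hg.nonneg v) (ang_pos v) ?_
    calc ang v = ang v ^ 1 := (pow_one _).symm
      _ ≤ ang v ^ k := pow_le_pow_right₀ (one_le_ang v) hk
  refine ⟨hbd 2 (by norm_num), hbd 3 (by norm_num), ?_, ?_⟩
  · obtain ⟨ρ, hρ⟩ : ∃ ρ, ρ = Real.sqrt (1 + Kw g) := ⟨_, rfl⟩
    have hρsq : ρ ^ 2 = 1 + Kw g := by rw [hρ]; exact Real.sq_sqrt (by linarith)
    have hρ0 : 0 ≤ ρ := by rw [hρ]; exact Real.sqrt_nonneg _
    have hρ1 : 1 ≤ ρ := by nlinarith
    have hρp : 0 < ρ := by linarith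
    rw [← hρ]
    have hne : ∀ᵐ v : V, v ≠ 0 := by
      rw [ae_iff]
      simp
    have hk := kker_int 2 le_rfl ρ hρp
    have hle : ∀ᵐ v : V, g v / ang v ^ 2 ≤ kker 2 ρ ‖v‖ + (g v / ang v) / ρ := by
      filter_upwards [hne] with v hv
      have hv0 : 0 < ‖v‖ := norm_pos_iff.2 hv
      have ha := ang_pos v
      have h3 : 0 ≤ (g v / ang v) / ρ := div_nonneg (div_nonneg (hg.nonneg v) ha.le) hρ0
      by_cases h : ‖v‖ < ρ
      · simp only [kker]
        rw [indicator_of_mem (show ‖v‖ ∈ Iio ρ from h)]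
        have h1 : g v / ang v ^ 2 ≤ 1 / ‖v‖ ^ 2 :=
          div_le_div₀ zero_le_one (hg.le_one v) (pow_pos hv0 2)
            (pow_le_pow_left₀ hv0.le (norm_le_ang v) 2)
        linarith
      · simp only [kker]
        rw [indicator_of_notMem (show ‖v‖ ∉ Iio ρ from h), zero_add]
        push Not at h
        have h1 : ρ ≤ ang v := h.trans (norm_le_ang v)
        rw [div_div, pow_two]
        exact div_le_div_of_nonneg_left (hg.nonneg v) (mul_pos ha hρp)
          (mul_le_mul_of_nonneg_left h1 ha.le)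
    have hint := integral_mono_ae (hbd 2 (by norm_num)) (hk.1.add (hg.int.div_const ρ)) hle
    have heq : ∫ v, ((fun z : V => kker 2 ρ ‖z‖) + fun v => g v / ang v / ρ) v =
        (∫ z : V, kker 2 ρ ‖z‖) + Kw g / ρ := by
      have := integral_add hk.1 (hg.int.div_const ρ)
      rw [integral_div] at this
      exact this
    rw [heq] at hint
    have h4 := kker_int_le_two ρ hρp
    have h5 : Kw g / ρ ≤ ρ := by
      rw [div_le_iff₀ hρp]
      nlinarith
    calc ∫ v, g v / ang v ^ 2 ≤ (∫ z : V, kker 2 ρ ‖z‖) + Kw g / ρ := hint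
      _ ≤ 13 * ρ + ρ := add_le_add h4 h5
      _ ≤ 200 * ρ := by linarith
  · obtain ⟨ρ, hρ⟩ : ∃ ρ, ρ = Real.sqrt (1 + Kw g) := ⟨_, rfl⟩
    have hρsq : ρ ^ 2 = 1 + Kw g := by rw [hρ]; exact Real.sq_sqrt (by linarith)
    have hρ0 : 0 ≤ ρ := by rw [hρ]; exact Real.sqrt_nonneg _
    have hρ1 : 1 ≤ ρ := by nlinarith
    have hρp : 0 < ρ := by linarith
    have hk := lker_int ρ hρp
    have hle : ∀ v : V, g v / ang v ^ 3 ≤ 8 * lker ρ ‖v‖ + (g v / ang v) / ρ ^ 2 := by
      intro v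
      have hv0 : 0 ≤ ‖v‖ := norm_nonneg v
      have ha := ang_pos v
      have h3 : 0 ≤ (g v / ang v) / ρ ^ 2 :=
        div_nonneg (div_nonneg (hg.nonneg v) ha.le) (sq_nonneg _)
      by_cases h : ‖v‖ < ρ
      · simp only [lker]
        rw [indicator_of_mem (show ‖v‖ ∈ Iio ρ from h)]
        have h1 : g v / ang v ^ 3 ≤ 1 / ((1 + ‖v‖) / 2) ^ 3 :=
          div_le_div₀ zero_le_one (hg.le_one v) (by positivity)
            (pow_le_pow_left₀ (by positivity) (half_le_ang v) 3)
        have h2 : 1 / ((1 + ‖v‖) / 2) ^ 3 = 8 * (1 / (1 + ‖v‖) ^ 3) := by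
          rw [div_pow, one_div_div]
          norm_num
          ring
        linarith
      · simp only [lker]
        rw [indicator_of_notMem (show ‖v‖ ∉ Iio ρ from h), mul_zero, zero_add]
        push Not at h
        have h1 : ρ ^ 2 ≤ ang v ^ 2 := pow_le_pow_left₀ hρ0 (h.trans (norm_le_ang v)) 2
        rw [div_div, show ang v ^ 3 = ang v * ang v ^ 2 by ring]
        exact div_le_div_of_nonneg_left (hg.nonneg v) (mul_pos ha (by positivity))
          (mul_le_mul_of_nonneg_left h1 ha.le)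
    have hint := integral_mono (hbd 3 (by norm_num))
      ((hk.1.const_mul 8).add (hg.int.div_const (ρ ^ 2))) hle
    have heq : ∫ v, ((fun z : V => 8 * lker ρ ‖z‖) + fun v => g v / ang v / ρ ^ 2) v =
        8 * (∫ z : V, lker ρ ‖z‖) + Kw g / ρ ^ 2 := by
      have := integral_add (hk.1.const_mul 8) (hg.int.div_const (ρ ^ 2))
      rw [integral_div, integral_const_mul] at this
      exact this
    rw [heq] at hint
    have h4 := lker_bound ρ hρp
    have h5 : Kw g / ρ ^ 2 ≤ 1 := by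
      rw [div_le_one (by positivity), hρsq]
      linarith
    have h6 : Real.log (1 + ρ) ≤ 1 + Real.log (1 + Kw g) := by
      have h7 : Real.log (1 + ρ) ≤ Real.log (2 * (1 + Kw g)) := by
        apply Real.log_le_log (by linarith)
        nlinarith
      have h8 : Real.log (2 * (1 + Kw g)) = Real.log 2 + Real.log (1 + Kw g) :=
        Real.log_mul (by norm_num) (by linarith)
      have h9 : Real.log 2 < 1 := by
        have := Real.log_two_lt_d9
        linarith
      linarith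
    have h10 : 0 ≤ Real.log (1 + Kw g) := Real.log_nonneg (by linarith)
    calc ∫ v, g v / ang v ^ 3 ≤ 8 * (∫ z : V, lker ρ ‖z‖) + Kw g / ρ ^ 2 := hint
      _ ≤ 8 * (13 * (1 + Real.log (1 + Kw g))) + 1 := by linarith
      _ ≤ 200 * (1 + Real.log (1 + Kw g)) := by linarith

end Pool.Agent.Landau
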