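import Pool.Agent.LandauG.WDefs
import Pool.Agent.Landau.WBound

/-!
# LandauG, module WKer: bounds for the kernel `Kf φ`

`Kf_zero_of` is the definition.

`Kf_bound_ang`: `Kf φ v w = Kf φ w v` (`aK_neg`, `bK_neg`), so let `ang v ≤ ang w`, `z = v - w`.
Claim `|pd i φ v - pd i φ w| ≤ 16 A ‖z‖ / ang v ^ 3`.  If `‖z‖ ≤ ang v / 2` then every point `x` of the segment from
`v` to `w` (a convex subset of the closed ball around `v` of radius `ang v / 2`) has
`ang x ≥ ang v - ‖x - v‖ ≥ ang v / 2` (`ang_lip`), so `|pd j (pd i φ) x| ≤ 8 A / ang v ^ 3`, and the norm of the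
differential of `pd i φ` is at most `2 * (8 A / ang v ^ 3)` (see `WBoundAux.grad_lip`, `WBoundAux.sum_abs_le`,
`WBoundAux.vec_sum` in `Landau/WBound.lean`); use `Convex.norm_image_sub_le_of_norm_fderiv_le` on this ball.
If `‖z‖ > ang v / 2` then `|pd i φ v| + |pd i φ w| ≤ 2 A / ang v ^ 2 ≤ 4 A ‖z‖ / ang v ^ 3`.
With `bK_abs`, `aK_abs`: `|Kf φ v w| ≤ 3 * 16 A / (ang v ^ 3 ‖z‖) + (9 / 2) A (1 / ang v ^ 3 + 1 / ang w ^ 3) / ‖z‖`.
-/

set_option autoImplicit false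

namespace Pool.Agent.Landau

open MeasureTheory Set Filter Topology

open WBoundAux

namespace WKerAux

theorem fd_le (G : V → ℝ) (Λ : ℝ) (x : V) (hΛ : ∀ j, |pd j G x| ≤ Λ) :
    ‖fderiv ℝ G x‖ ≤ 2 * Λ := by
  have h0 : 0 ≤ Λ := (abs_nonneg _).trans (hΛ 0)
  refine ContinuousLinearMap.opNorm_le_bound _ (by positivity) fun u => ?_
  have h2 : fderiv ℝ G x u = ∑ j, u j * pd j G x := by
    conv_lhs => rw [vec_sum u]
    rw [map_sum]
    refine Finset.sum_congr rfl fun j _ => ?_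
    rw [map_smul, smul_eq_mul]
    rfl
  rw [h2, Real.norm_eq_abs]
  calc |∑ j, u j * pd j G x| ≤ ∑ j, |u j * pd j G x| := Finset.abs_sum_le_sum_abs _ _
    _ ≤ ∑ j, |u j| * Λ := Finset.sum_le_sum fun j _ => by
        rw [abs_mul]
        exact mul_le_mul_of_nonneg_left (hΛ j) (abs_nonneg _)
    _ = (∑ j, |u j|) * Λ := by rw [Finset.sum_mul]
    _ ≤ (2 * ‖u‖) * Λ := mul_le_mul_of_nonneg_right (sum_abs_le u) h0
    _ = 2 * Λ * ‖u‖ := by ring

theorem lip (φ : V → ℝ) (hφ : ContDiff ℝ (⊤ : ℕ∞) φ) (A : ℝ) (hA : 0 ≤ A)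
    (h1 : ∀ i v, |pd i φ v| ≤ A / ang v ^ 2) (h2 : ∀ i j v, |pd i (pd j φ) v| ≤ A / ang v ^ 3)
    (i : Fin 3) (v w : V) (hvw : ang v ≤ ang w) :
    |pd i φ v - pd i φ w| ≤ 16 * A * ‖v - w‖ / ang v ^ 3 := by
  have hv := ang_pos v
  rcases le_or_gt ‖v - w‖ (ang v / 2) with hz | hz
  · have h3 : ∀ x ∈ Metric.closedBall v (ang v / 2), ‖fderiv ℝ (pd i φ) x‖ ≤
        2 * (A / (ang v / 2) ^ 3) := by
      intro x hx
      refine fd_le _ _ _ fun j => (h2 j i x).trans ?_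
      rw [Metric.mem_closedBall, dist_eq_norm] at hx
      have h4 := ang_lip v x
      rw [norm_sub_rev] at h4
      have h5 : ang v / 2 ≤ ang x := by linarith
      exact div_le_div_of_nonneg_left hA (by positivity)
        (pow_le_pow_left₀ (by positivity) h5 3)
    have h6 := (convex_closedBall v (ang v / 2)).norm_image_sub_le_of_norm_fderiv_le (𝕜 := ℝ)
      (f := pd i φ) (fun x _ => (differentiable_of_smooth (smooth_pd hφ i)) x) h3
      (x := w) (y := v)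
      (by rw [Metric.mem_closedBall, dist_eq_norm, norm_sub_rev]; exact hz)
      (Metric.mem_closedBall_self (by positivity))
    rw [Real.norm_eq_abs] at h6
    refine h6.trans (le_of_eq ?_)
    field_simp
    ring
  · have h3 := h1 i v
    have h4 : |pd i φ w| ≤ A / ang v ^ 2 := (h1 i w).trans
      (div_le_div_of_nonneg_left hA (by positivity) (pow_le_pow_left₀ hv.le hvw 2))
    have h5 : |pd i φ v - pd i φ w| ≤ 2 * A / ang v ^ 2 := by
      refine (abs_sub _ _).trans ?_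
      have : 2 * A / ang v ^ 2 = A / ang v ^ 2 + A / ang v ^ 2 := by ring
      linarith
    refine h5.trans ?_
    rw [div_le_div_iff₀ (by positivity) (by positivity)]
    have h6 : ang v ≤ 8 * ‖v - w‖ := by linarith
    have h7 : 0 ≤ 2 * A * ang v ^ 2 := by positivity
    calc 2 * A * ang v ^ 3 = 2 * A * ang v ^ 2 * ang v := by ring
      _ ≤ 2 * A * ang v ^ 2 * (8 * ‖v - w‖) := mul_le_mul_of_nonneg_left h6 h7
      _ = 16 * A * ‖v - w‖ * ang v ^ 2 := by ring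

theorem Kf_symm (φ : V → ℝ) (v w : V) : Kf φ v w = Kf φ w v := by
  unfold Kf
  have h : v - w = -(w - v) := (neg_sub w v).symm
  rw [h]
  congr 1
  · refine Finset.sum_congr rfl fun i _ => ?_
    rw [bK_neg]
    ring
  · congr 1
    refine Finset.sum_congr rfl fun i _ => Finset.sum_congr rfl fun j _ => ?_
    rw [aK_neg]
    ring

theorem bound_le (φ : V → ℝ) (hφ : ContDiff ℝ (⊤ : ℕ∞) φ) (A : ℝ) (hA : 0 ≤ A)
    (h1 : ∀ i v, |pd i φ v| ≤ A / ang v ^ 2) (h2 : ∀ i j v, |pd i (pd j φ) v| ≤ A / ang v ^ 3)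
    (v w : V) (hvw : ang v ≤ ang w) :
    |Kf φ v w| ≤ 60 * A * (1 / ang v ^ 3 + 1 / ang w ^ 3) / ‖v - w‖ := by
  have hv := ang_pos v
  have hw := ang_pos w
  have hb : ∀ i, |bK i (v - w) * (pd i φ v - pd i φ w)| ≤ 16 * A / ang v ^ 3 / ‖v - w‖ := by
    intro i
    rw [abs_mul]
    calc |bK i (v - w)| * |pd i φ v - pd i φ w|
        ≤ 1 / ‖v - w‖ ^ 2 * (16 * A * ‖v - w‖ / ang v ^ 3) :=
          mul_le_mul (bK_abs i _) (lip φ hφ A hA h1 h2 i v w hvw) (abs_nonneg _) (by positivity)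
      _ = 16 * A / ang v ^ 3 / ‖v - w‖ := by
          by_cases hz : ‖v - w‖ = 0
          · rw [hz]
            simp
          · field_simp
  have ha : ∀ i j, |aK i j (v - w) * (pd i (pd j φ) v + pd i (pd j φ) w)| ≤
      A * (1 / ang v ^ 3 + 1 / ang w ^ 3) / ‖v - w‖ := by
    intro i j
    rw [abs_mul]
    have h3 : |pd i (pd j φ) v + pd i (pd j φ) w| ≤ A * (1 / ang v ^ 3 + 1 / ang w ^ 3) := by
      refine (abs_add_le _ _).trans ?_
      have h4 : A * (1 / ang v ^ 3 + 1 / ang w ^ 3) = A / ang v ^ 3 + A / ang w ^ 3 := by ring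
      rw [h4]
      exact add_le_add (h2 i j v) (h2 i j w)
    calc |aK i j (v - w)| * |pd i (pd j φ) v + pd i (pd j φ) w|
        ≤ 1 / ‖v - w‖ * (A * (1 / ang v ^ 3 + 1 / ang w ^ 3)) :=
          mul_le_mul (aK_abs i j _) h3 (abs_nonneg _) (by positivity)
      _ = A * (1 / ang v ^ 3 + 1 / ang w ^ 3) / ‖v - w‖ := by ring
  have h3 : |∑ i : Fin 3, bK i (v - w) * (pd i φ v - pd i φ w)| ≤
      3 * (16 * A / ang v ^ 3 / ‖v - w‖) := by
    refine (Finset.abs_sum_le_sum_abs _ _).trans ((Finset.sum_le_sum fun i _ => hb i).trans ?_)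
    simp
  have h4 : |∑ i : Fin 3, ∑ j : Fin 3, aK i j (v - w) * (pd i (pd j φ) v + pd i (pd j φ) w)| ≤
      9 * (A * (1 / ang v ^ 3 + 1 / ang w ^ 3) / ‖v - w‖) := by
    refine (Finset.abs_sum_le_sum_abs _ _).trans ((Finset.sum_le_sum fun i _ =>
      (Finset.abs_sum_le_sum_abs _ _).trans (Finset.sum_le_sum fun j _ => ha i j)).trans ?_)
    simp only [Finset.sum_const, Finset.card_univ, Fintype.card_fin, nsmul_eq_mul]
    apply le_of_eq
    push_cast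
    ring
  have h5 : 16 * A / ang v ^ 3 / ‖v - w‖ ≤
      16 * (A * (1 / ang v ^ 3 + 1 / ang w ^ 3) / ‖v - w‖) := by
    have h6 : 16 * (A * (1 / ang v ^ 3 + 1 / ang w ^ 3) / ‖v - w‖) =
        16 * A / ang v ^ 3 / ‖v - w‖ + 16 * A / ang w ^ 3 / ‖v - w‖ := by ring
    rw [h6]
    have h7 : 0 ≤ 16 * A / ang w ^ 3 / ‖v - w‖ := by positivity
    linarith
  have h8 : 0 ≤ A * (1 / ang v ^ 3 + 1 / ang w ^ 3) / ‖v - w‖ := by positivity
  unfold Kf
  calc _ ≤ |∑ i : Fin 3, bK i (v - w) * (pd i φ v - pd i φ w)| +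
        |1 / 2 * ∑ i : Fin 3, ∑ j : Fin 3, aK i j (v - w) *
          (pd i (pd j φ) v + pd i (pd j φ) w)| := abs_add_le _ _
    _ ≤ 3 * (16 * (A * (1 / ang v ^ 3 + 1 / ang w ^ 3) / ‖v - w‖)) +
        1 / 2 * (9 * (A * (1 / ang v ^ 3 + 1 / ang w ^ 3) / ‖v - w‖)) := by
        rw [abs_mul, abs_of_pos (by norm_num : (0 : ℝ) < 1 / 2)]
        linarith
    _ ≤ 60 * (A * (1 / ang v ^ 3 + 1 / ang w ^ 3) / ‖v - w‖) := by linarith
    _ = 60 * A * (1 / ang v ^ 3 + 1 / ang w ^ 3) / ‖v - w‖ := by ring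

end WKerAux

theorem Kf_zero_of (φ : V → ℝ) (v w : V) (h1 : ∀ i, pd i φ v = 0) (h2 : ∀ i, pd i φ w = 0)
    (h3 : ∀ i j, pd i (pd j φ) v = 0) (h4 : ∀ i j, pd i (pd j φ) w = 0) : Kf φ v w = 0 := by
  unfold Kf
  simp [h1, h2, h3, h4]

theorem Kf_bound_ang (φ : V → ℝ) (hφ : ContDiff ℝ (⊤ : ℕ∞) φ) (A : ℝ)
    (h1 : ∀ i v, |pd i φ v| ≤ A / ang v ^ 2) (h2 : ∀ i j v, |pd i (pd j φ) v| ≤ A / ang v ^ 3)
    (v w : V) : |Kf φ v w| ≤ 60 * A * (1 / ang v ^ 3 + 1 / ang w ^ 3) / ‖v - w‖ := by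
  have hA : 0 ≤ A := by
    by_contra hc
    have h3 := (abs_nonneg _).trans (h1 0 0)
    have h4 := div_neg_of_neg_of_pos (not_le.1 hc) (pow_pos (ang_pos (0 : V)) 2)
    linarith
  rcases le_total (ang v) (ang w) with h | h
  · exact WKerAux.bound_le φ hφ A hA h1 h2 v w h
  · have h3 := WKerAux.bound_le φ hφ A hA h1 h2 w v h
    rw [WKerAux.Kf_symm, norm_sub_rev, add_comm (1 / ang v ^ 3)]
    exact h3

end Pool.Agent.Landau
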