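import Pool.Agent.LandauG.WDefs

/-!
# LandauG, module WTest: the test functions `phiW R = chi R / ang`

`ang` is smooth and positive, so `phiW R` is smooth; `chi R` has compact support.
`ang_inv_pd`: with `ρ v = 1 + ‖v‖²`, `1 / ang v = (ρ v) ^ (-1/2)`: `pd i (1 / ang) v = - v i / ang v ^ 3`,
`pd i (pd j (1 / ang)) v = - δ_ij / ang v ^ 3 + 3 v i v j / ang v ^ 5`; as `|v i| ≤ ang v` the first derivatives are at
most `1 / ang v ^ 2`, the second at most `4 / ang v ^ 3`.
`phiW_bounds`: product rule (`pd_mul` twice); on the support of `chi R` we have `‖v‖ ≤ 2 R`, so `ang v ≤ 4 R` and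
`1 / R ≤ 4 / ang v`; off the support all derivatives of `chi R` and of `phiW R` vanish (for `‖v‖ > 2 R`;
`‖v‖ = 2 R` still has `ang v ≤ 4 R`).  With `C0` the constant of `chi_bounds`:
`|pd i (phiW R)| ≤ (C0 / R) / ang + 1 / ang ^ 2 ≤ (4 C0 + 1) / ang ^ 2`,
`|pd i (pd j (phiW R))| ≤ (C0 / R ^ 2) / ang + 2 (C0 / R) / ang ^ 2 + 4 / ang ^ 3 ≤ (24 C0 + 4) / ang ^ 3`.
-/

set_option autoImplicit false

namespace Pool.Agent.Landau

open MeasureTheory Set Filter Topology

theorem wt_inv_smooth : ContDiff ℝ (⊤ : ℕ∞) (fun v : V => (ang v)⁻¹) :=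
  ang_smooth.inv fun v => (ang_pos v).ne'

theorem wt_phiW (R : ℝ) : phiW R = fun v => chi R v * (ang v)⁻¹ := by
  funext v
  unfold phiW
  rw [div_eq_mul_inv]

theorem wt_pd_coord (i j : Fin 3) (v : V) :
    pd i (fun u : V => u j) v = if i = j then 1 else 0 := by
  unfold pd
  have h : HasFDerivAt (fun u : V => u j) (EuclideanSpace.proj j : V →L[ℝ] ℝ) v :=
    (EuclideanSpace.proj j : V →L[ℝ] ℝ).hasFDerivAt
  rw [h.fderiv]
  by_cases hij : i = j
  · subst hij
    simp
  · rw [if_neg hij]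
    simp [Ne.symm hij]

theorem wt_pd_normsq (i : Fin 3) (v : V) : pd i (fun u : V => ‖u‖ ^ 2) v = 2 * v i := by
  unfold pd
  have h : HasFDerivAt (fun u : V => ‖u‖ ^ 2) (2 • (innerSL ℝ v)) v :=
    (hasStrictFDerivAt_norm_sq v).hasFDerivAt
  rw [h.fderiv]
  simp [EuclideanSpace.inner_single_right]

theorem wt_pd_ang (i : Fin 3) (v : V) : pd i ang v = v i / ang v := by
  have hd : DifferentiableAt ℝ (fun u : V => 1 + ‖u‖ ^ 2) v :=
    differentiable_of_smooth (contDiff_const.add (contDiff_norm_sq ℝ)) v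
  have h0 : (1 + ‖v‖ ^ 2 : ℝ) ≠ 0 := by positivity
  have h1 := pd_comp (g := fun u : V => 1 + ‖u‖ ^ 2) hd (Real.hasDerivAt_sqrt h0) i
  have h2 : pd i (fun u : V => 1 + ‖u‖ ^ 2) v = 2 * v i := by
    rw [← wt_pd_normsq i v]
    unfold pd
    rw [fderiv_const_add]
  have h3 : pd i ang v = pd i (fun x : V => Real.sqrt (1 + ‖x‖ ^ 2)) v := rfl
  rw [h3, h1, h2]
  show 1 / (2 * ang v) * (2 * v i) = v i / ang v
  have := (ang_pos v).ne'
  field_simp

theorem wt_ang_diff (v : V) : DifferentiableAt ℝ ang v := differentiable_of_smooth ang_smooth v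

theorem wt_pd_inv (i : Fin 3) (v : V) :
    pd i (fun u : V => (ang u)⁻¹) v = - (v i * (ang v ^ 3)⁻¹) := by
  have h0 := (ang_pos v).ne'
  rw [pd_comp (wt_ang_diff v) (hasDerivAt_inv h0) i, wt_pd_ang]
  field_simp

theorem wt_pd_inv3 (i : Fin 3) (v : V) :
    pd i (fun u : V => (ang u ^ 3)⁻¹) v = - (3 * v i * (ang v ^ 5)⁻¹) := by
  have h0 := (ang_pos v).ne'
  have h1 : HasDerivAt (fun x : ℝ => (x ^ 3)⁻¹) (-(3 * ang v ^ 2) / (ang v ^ 3) ^ 2) (ang v) := by
    have h2 := (hasDerivAt_pow 3 (ang v)).fun_inv (pow_ne_zero 3 h0)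
    simpa using h2
  rw [pd_comp (wt_ang_diff v) h1 i, wt_pd_ang]
  field_simp

theorem wt_inv3_diff (v : V) : DifferentiableAt ℝ (fun u : V => (ang u ^ 3)⁻¹) v := by
  have h : ContDiff ℝ (⊤ : ℕ∞) (fun u : V => (ang u ^ 3)⁻¹) :=
    (ang_smooth.pow 3).inv fun u => pow_ne_zero 3 (ang_pos u).ne'
  exact differentiable_of_smooth h v

theorem wt_pd_pd_inv (i j : Fin 3) (v : V) :
    pd i (pd j (fun u : V => (ang u)⁻¹)) v =
      - ((if i = j then 1 else 0) * (ang v ^ 3)⁻¹) + 3 * v i * v j * (ang v ^ 5)⁻¹ := by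
  have h1 : pd j (fun u : V => (ang u)⁻¹) = fun u : V => (- u j) * (ang u ^ 3)⁻¹ := by
    funext u
    rw [wt_pd_inv]
    ring
  have hd : DifferentiableAt ℝ (fun u : V => - u j) v := by fun_prop
  rw [h1, pd_mul hd (wt_inv3_diff v), wt_pd_inv3]
  have h2 : pd i (fun u : V => - u j) v = - (if i = j then 1 else 0) := by
    rw [← wt_pd_coord i j v]
    unfold pd
    rw [fderiv_fun_neg]
    simp
  rw [h2]
  ring

theorem wt_abs_coord (v : V) (i : Fin 3) : |v i| ≤ ang v :=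
  (Cls.abs_coord v i).trans (norm_le_ang v)

theorem wt_b1 (i : Fin 3) (v : V) : |pd i (fun u : V => (ang u)⁻¹) v| ≤ 1 / ang v ^ 2 := by
  have h0 := ang_pos v
  rw [wt_pd_inv, abs_neg, abs_mul, abs_inv, abs_of_pos (by positivity : 0 < ang v ^ 3)]
  calc |v i| * (ang v ^ 3)⁻¹ ≤ ang v * (ang v ^ 3)⁻¹ :=
        mul_le_mul_of_nonneg_right (wt_abs_coord v i) (by positivity)
    _ = 1 / ang v ^ 2 := by field_simp

theorem wt_b2 (i j : Fin 3) (v : V) :
    |pd i (pd j (fun u : V => (ang u)⁻¹)) v| ≤ 4 / ang v ^ 3 := by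
  have h0 := ang_pos v
  rw [wt_pd_pd_inv]
  have h1 : |-((if i = j then (1 : ℝ) else 0) * (ang v ^ 3)⁻¹)| ≤ 1 / ang v ^ 3 := by
    rw [abs_neg, abs_mul, abs_of_pos (by positivity : 0 < (ang v ^ 3)⁻¹), one_div]
    have : |(if i = j then (1 : ℝ) else 0)| ≤ 1 := by
      split_ifs <;> simp
    calc _ ≤ 1 * (ang v ^ 3)⁻¹ := mul_le_mul_of_nonneg_right this (by positivity)
      _ = _ := one_mul _
  have h2 : |3 * v i * v j * (ang v ^ 5)⁻¹| ≤ 3 / ang v ^ 3 := by
    rw [abs_mul, abs_mul, abs_mul, abs_of_pos (by positivity : 0 < (ang v ^ 5)⁻¹),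
      abs_of_pos (by norm_num : (0 : ℝ) < 3)]
    calc 3 * |v i| * |v j| * (ang v ^ 5)⁻¹ ≤ 3 * ang v * ang v * (ang v ^ 5)⁻¹ := by
          have a1 := wt_abs_coord v i
          have a2 := wt_abs_coord v j
          gcongr
      _ = 3 / ang v ^ 3 := by field_simp
  calc _ ≤ _ := abs_add_le _ _
    _ ≤ 1 / ang v ^ 3 + 3 / ang v ^ 3 := add_le_add h1 h2
    _ = 4 / ang v ^ 3 := by ring

theorem wt_pd1 (R : ℝ) (i : Fin 3) (v : V) :
    pd i (phiW R) v = chi R v * pd i (fun u : V => (ang u)⁻¹) v +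
      pd i (chi R) v * (ang v)⁻¹ := by
  rw [wt_phiW, pd_mul (differentiable_of_smooth (chi_smooth R) v)
    (differentiable_of_smooth wt_inv_smooth v)]

theorem wt_pd2 (R : ℝ) (i j : Fin 3) (v : V) :
    pd i (pd j (phiW R)) v = (chi R v * pd i (pd j (fun u : V => (ang u)⁻¹)) v +
      pd i (chi R) v * pd j (fun u : V => (ang u)⁻¹) v) +
      (pd j (chi R) v * pd i (fun u : V => (ang u)⁻¹) v +
      pd i (pd j (chi R)) v * (ang v)⁻¹) := by
  have h1 : pd j (phiW R) = fun u => (chi R u * pd j (fun u : V => (ang u)⁻¹) u) +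
      (pd j (chi R) u * (ang u)⁻¹) := by
    funext u
    exact wt_pd1 R j u
  have d1 := differentiable_of_smooth (chi_smooth R) v
  have d2 := differentiable_of_smooth (smooth_pd wt_inv_smooth j) v
  have d3 := differentiable_of_smooth (smooth_pd (chi_smooth R) j) v
  have d4 := differentiable_of_smooth wt_inv_smooth v
  rw [h1, pd_add (f := fun u => chi R u * pd j (fun u : V => (ang u)⁻¹) u)
    (g := fun u => pd j (chi R) u * (ang u)⁻¹) (d1.mul d2) (d3.mul d4), pd_mul d1 d2, pd_mul d3 d4]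

theorem wt_chi2_outer {R : ℝ} (hR : 0 < R) {v : V} (h : 2 * R < ‖v‖) (i j : Fin 3) :
    pd i (pd j (chi R)) v = 0 := by
  have hopen : IsOpen {u : V | 2 * R < ‖u‖} := isOpen_lt continuous_const continuous_norm
  have h1 : pd j (chi R) =ᶠ[𝓝 v] fun _ => 0 := by
    filter_upwards [hopen.mem_nhds h] with u hu
    exact pd_chi_outer hR hu j
  unfold pd at h1 ⊢
  rw [h1.fderiv_eq]
  simp

theorem phiW_smooth (R : ℝ) : ContDiff ℝ (⊤ : ℕ∞) (phiW R) := by
  rw [wt_phiW]
  exact (chi_smooth R).mul wt_inv_smooth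

theorem phiW_compact {R : ℝ} (hR : 0 < R) : HasCompactSupport (phiW R) := by
  rw [wt_phiW]
  exact (chi_compact hR).mul_right

theorem phiW_nonneg (R : ℝ) (v : V) : 0 ≤ phiW R v :=
  div_nonneg (chi_nonneg R v) (ang_pos v).le

theorem phiW_le (R : ℝ) (v : V) : phiW R v ≤ 1 / ang v :=
  div_le_div_of_nonneg_right (chi_le_one R v) (ang_pos v).le

theorem phiW_eq {R : ℝ} (hR : 0 < R) {v : V} (h : ‖v‖ ≤ R) : phiW R v = 1 / ang v := by
  unfold phiW
  rw [chi_one hR h]

theorem phiW_bounds : ∃ C : ℝ, 0 < C ∧ ∀ R : ℝ, 1 ≤ R →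
    (∀ i v, |pd i (phiW R) v| ≤ C / ang v ^ 2) ∧
    (∀ i j v, |pd i (pd j (phiW R)) v| ≤ C / ang v ^ 3) := by
  obtain ⟨C0, hC0, hchi⟩ := chi_bounds
  refine ⟨24 * C0 + 4, by positivity, fun R hR => ?_⟩
  have hR0 : 0 < R := by linarith
  obtain ⟨hc1, hc2, -, -⟩ := hchi R hR
  have hRa : ∀ v : V, ‖v‖ ≤ 2 * R → 1 / R ≤ 4 / ang v := by
    intro v hv
    have h1 := ang_le_of_norm_le (R := 2 * R) (by linarith) hv
    rw [div_le_div_iff₀ hR0 (ang_pos v)]
    linarith
  have hchi1 : ∀ v : V, |chi R v| ≤ 1 := fun v => by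
    rw [abs_of_nonneg (chi_nonneg R v)]
    exact chi_le_one R v
  constructor
  · intro i v
    have h0 := ang_pos v
    rw [wt_pd1]
    rcases le_or_gt ‖v‖ (2 * R) with hv | hv
    · have e1 : |chi R v * pd i (fun u : V => (ang u)⁻¹) v| ≤ 1 / ang v ^ 2 := by
        rw [abs_mul]
        calc _ ≤ 1 * (1 / ang v ^ 2) :=
              mul_le_mul (hchi1 v) (wt_b1 i v) (abs_nonneg _) zero_le_one
          _ = _ := one_mul _
      have e2 : |pd i (chi R) v * (ang v)⁻¹| ≤ 4 * C0 / ang v ^ 2 := by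
        rw [abs_mul, abs_of_pos (by positivity : 0 < (ang v)⁻¹)]
        calc |pd i (chi R) v| * (ang v)⁻¹ ≤ (C0 / R) * (ang v)⁻¹ :=
              mul_le_mul_of_nonneg_right (hc1 i v) (by positivity)
          _ = C0 * (1 / R) * (ang v)⁻¹ := by ring
          _ ≤ C0 * (4 / ang v) * (ang v)⁻¹ := by
              have := hRa v hv
              gcongr
          _ = _ := by field_simp
      calc _ ≤ _ := abs_add_le _ _
        _ ≤ 1 / ang v ^ 2 + 4 * C0 / ang v ^ 2 := add_le_add e1 e2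
        _ = (4 * C0 + 1) / ang v ^ 2 := by ring
        _ ≤ _ := by
            gcongr
            · linarith
            · norm_num
    · rw [chi_zero hR0 hv.le, pd_chi_outer hR0 hv, zero_mul, zero_mul, add_zero, abs_zero]
      positivity
  · intro i j v
    have h0 := ang_pos v
    rw [wt_pd2]
    rcases le_or_gt ‖v‖ (2 * R) with hv | hv
    · have hRv := hRa v hv
      have e1 : |chi R v * pd i (pd j (fun u : V => (ang u)⁻¹)) v| ≤ 4 / ang v ^ 3 := by
        rw [abs_mul]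
        calc _ ≤ 1 * (4 / ang v ^ 3) :=
              mul_le_mul (hchi1 v) (wt_b2 i j v) (abs_nonneg _) zero_le_one
          _ = _ := one_mul _
      have e2 : ∀ i j : Fin 3, |pd i (chi R) v * pd j (fun u : V => (ang u)⁻¹) v| ≤
          4 * C0 / ang v ^ 3 := by
        intro i j
        rw [abs_mul]
        calc |pd i (chi R) v| * |pd j (fun u : V => (ang u)⁻¹) v| ≤
            (C0 / R) * (1 / ang v ^ 2) :=
              mul_le_mul (hc1 i v) (wt_b1 j v) (abs_nonneg _) (by positivity)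
          _ = C0 * (1 / R) * (1 / ang v ^ 2) := by ring
          _ ≤ C0 * (4 / ang v) * (1 / ang v ^ 2) := by gcongr
          _ = _ := by field_simp
      have e3 : |pd i (pd j (chi R)) v * (ang v)⁻¹| ≤ 16 * C0 / ang v ^ 3 := by
        rw [abs_mul, abs_of_pos (by positivity : 0 < (ang v)⁻¹)]
        calc |pd i (pd j (chi R)) v| * (ang v)⁻¹ ≤ (C0 / R ^ 2) * (ang v)⁻¹ :=
              mul_le_mul_of_nonneg_right (hc2 i j v) (by positivity)
          _ = C0 * ((1 / R) * (1 / R)) * (ang v)⁻¹ := by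
              field_simp
          _ ≤ C0 * ((4 / ang v) * (4 / ang v)) * (ang v)⁻¹ := by gcongr
          _ = _ := by
              field_simp
              norm_num
      calc _ ≤ _ := abs_add_le _ _
        _ ≤ (|chi R v * pd i (pd j (fun u : V => (ang u)⁻¹)) v| +
            |pd i (chi R) v * pd j (fun u : V => (ang u)⁻¹) v|) +
            (|pd j (chi R) v * pd i (fun u : V => (ang u)⁻¹) v| +
            |pd i (pd j (chi R)) v * (ang v)⁻¹|) := add_le_add (abs_add_le _ _) (abs_add_le _ _)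
        _ ≤ (4 / ang v ^ 3 + 4 * C0 / ang v ^ 3) + (4 * C0 / ang v ^ 3 + 16 * C0 / ang v ^ 3) :=
            add_le_add (add_le_add e1 (e2 i j)) (add_le_add (e2 j i) e3)
        _ = (24 * C0 + 4) / ang v ^ 3 := by ring
    · rw [chi_zero hR0 hv.le, pd_chi_outer hR0 hv, pd_chi_outer hR0 hv, wt_chi2_outer hR0 hv,
        zero_mul, zero_mul, zero_mul, zero_mul, add_zero, add_zero, abs_zero]
      positivity

/-- `∫ phiW R g ≤ Kw g`, and it tends to `Kw g` -/
theorem phiW_int (g : V → ℝ) (hg : Clw g) :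
    (∀ R : ℝ, 0 < R → Integrable (fun v => phiW R v * g v) ∧ ∫ v, phiW R v * g v ≤ Kw g) ∧
      Tendsto (fun R : ℝ => ∫ v, phiW R v * g v) atTop (𝓝 (Kw g)) := by
  have hle : ∀ (R : ℝ) (v : V), phiW R v * g v ≤ g v / ang v := by
    intro R v
    calc phiW R v * g v ≤ 1 / ang v * g v :=
          mul_le_mul_of_nonneg_right (phiW_le R v) (hg.nonneg v)
      _ = g v / ang v := by ring
  have hnn : ∀ (R : ℝ) (v : V), 0 ≤ phiW R v * g v := fun R v =>
    mul_nonneg (phiW_nonneg R v) (hg.nonneg v)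
  have hmeas : ∀ R : ℝ, AEStronglyMeasurable (fun v => phiW R v * g v) := fun R =>
    ((phiW_smooth R).continuous.mul hg.cont).aestronglyMeasurable
  have hnorm : ∀ (R : ℝ) (v : V), ‖phiW R v * g v‖ ≤ g v / ang v := by
    intro R v
    rw [Real.norm_eq_abs, abs_of_nonneg (hnn R v)]
    exact hle R v
  have hint : ∀ R : ℝ, Integrable (fun v => phiW R v * g v) := fun R =>
    hg.int.mono' (hmeas R) (Eventually.of_forall (hnorm R))
  refine ⟨fun R _ => ⟨hint R, ?_⟩, ?_⟩
  · exact integral_mono (hint R) hg.int (hle R)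
  · refine tendsto_integral_filter_of_dominated_convergence (fun v => g v / ang v)
      (Eventually.of_forall hmeas) (Eventually.of_forall fun R => Eventually.of_forall (hnorm R))
      hg.int (Eventually.of_forall fun v => ?_)
    refine tendsto_const_nhds.congr' ?_
    filter_upwards [eventually_ge_atTop (max ‖v‖ 1)] with R hR
    have h1 : ‖v‖ ≤ R := (le_max_left _ _).trans hR
    have h2 : 0 < R := lt_of_lt_of_le one_pos ((le_max_right _ _).trans hR)
    rw [phiW_eq h2 h1]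
    ring

end Pool.Agent.Landau
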