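import Pool.Agent.LandauG.WPot
import Pool.Agent.LandauG.WWeak
import Pool.Agent.LandauG.WKer
import Pool.Agent.LandauG.WTest
import Pool.Agent.LandauG.WInt

/-!
# LandauG, module WRate: rate of change of the localised weighted mass

By `weak_symW`, `phiW_bounds`, `Kf_bound_ang` and symmetry in `(v, w)`,
`|∫ phiW R * QL g| ≤ 120 A ∫ (g v / ang v ^ 3) (∫ g w / ‖v - w‖ dw) dv`.  (The double integral on the right is finite
by the next estimate, so Tonelli, or `lintegral`, can be used.)  By `pot_bound` with `r = √(1 + K)`, `K = Kw g`: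
`∫ g w / ‖v - w‖ dw ≤ 7 (1 + K) + 3 ang v √(1 + K) + 3 K ≤ 10 (1 + K) + 3 ang v √(1 + K)` (as `K / √(1 + K) ≤ √(1 + K)`).
So with `int_ang23` the right side is at most
`120 A (10 (1 + K) * C (1 + log (1 + K)) + 3 √(1 + K) * C √(1 + K)) ≤ C' (1 + K) (1 + log (1 + K))`.
-/

set_option autoImplicit false

namespace Pool.Agent.Landau

open MeasureTheory Set Filter Topology

namespace WRateAux

/-- the majorant kernel -/
noncomputable def HH (g : V → ℝ) (p : V × V) : ℝ := g p.1 / ang p.1 ^ 3 * (g p.2 / ‖p.1 - p.2‖)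

theorem HH_nonneg {g : V → ℝ} (hg : Clw g) (p : V × V) : 0 ≤ HH g p :=
  mul_nonneg (div_nonneg (hg.nonneg _) (pow_nonneg (ang_pos _).le 3))
    (div_nonneg (hg.nonneg _) (norm_nonneg _))

theorem HH_meas {g : V → ℝ} (hg : Clw g) : Measurable (HH g) := by
  have h1 : Measurable g := hg.cont.measurable
  have h2 : Measurable ang := continuous_ang.measurable
  unfold HH
  exact ((h1.comp measurable_fst).div ((h2.comp measurable_fst).pow_const 3)).mul
    ((h1.comp measurable_snd).div (measurable_fst.sub measurable_snd).norm)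

theorem pot_le {g : V → ℝ} (hg : Clw g) (v : V) :
    ∫ w, g w / ‖v - w‖ ≤ 10 * (1 + Kw g) + 3 * ang v * Real.sqrt (1 + Kw g) := by
  have hK := hg.Kw_nonneg
  have hr : 0 < Real.sqrt (1 + Kw g) := Real.sqrt_pos.2 (by linarith)
  have hr2 : Real.sqrt (1 + Kw g) ^ 2 = 1 + Kw g := Real.sq_sqrt (by linarith)
  have h := pot_bound g hg v (Real.sqrt (1 + Kw g)) hr
  have h1 : 3 * ang v * Kw g / Real.sqrt (1 + Kw g) ≤ 3 * ang v * Real.sqrt (1 + Kw g) := by
    rw [div_le_iff₀ hr]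
    have h2 : 0 ≤ 3 * ang v := by linarith [ang_pos v]
    have h3 : 3 * ang v * Real.sqrt (1 + Kw g) * Real.sqrt (1 + Kw g) = 3 * ang v * (1 + Kw g) := by
      rw [mul_assoc, ← sq, hr2]
    rw [h3]
    exact mul_le_mul_of_nonneg_left (by linarith) h2
  rw [hr2] at h
  linarith

theorem pot_nonneg {g : V → ℝ} (hg : Clw g) (v : V) : 0 ≤ ∫ w, g w / ‖v - w‖ :=
  integral_nonneg fun w => div_nonneg (hg.nonneg w) (norm_nonneg _)

theorem sec_eq (g : V → ℝ) (v : V) :
    ∫ w, HH g (v, w) = g v / ang v ^ 3 * ∫ w, g w / ‖v - w‖ := by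
  exact integral_const_mul (g v / ang v ^ 3) (fun w => g w / ‖v - w‖)

theorem sec_le {g : V → ℝ} (hg : Clw g) (v : V) :
    g v / ang v ^ 3 * (∫ w, g w / ‖v - w‖) ≤
      10 * (1 + Kw g) * (g v / ang v ^ 3) + 3 * Real.sqrt (1 + Kw g) * (g v / ang v ^ 2) := by
  have h1 := pot_le hg v
  have ha := ang_pos v
  have h2 : 0 ≤ g v / ang v ^ 3 := div_nonneg (hg.nonneg _) (pow_nonneg ha.le 3)
  have h3 := mul_le_mul_of_nonneg_left h1 h2
  refine h3.trans (le_of_eq ?_)
  field_simp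

theorem HH_int {g : V → ℝ} (hg : Clw g) (i2 : Integrable (fun v => g v / ang v ^ 2))
    (i3 : Integrable (fun v => g v / ang v ^ 3)) : Integrable (HH g) (volume.prod volume) := by
  rw [integrable_prod_iff (HH_meas hg).aestronglyMeasurable]
  refine ⟨Eventually.of_forall fun v => ?_, ?_⟩
  · exact (pot_int g hg v).const_mul (g v / ang v ^ 3)
  · have e1 : (fun v => ∫ w, ‖HH g (v, w)‖) = fun v => ∫ w, HH g (v, w) := by
      funext v
      refine integral_congr_ae (Eventually.of_forall fun w => ?_)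
      exact (Real.norm_eq_abs _).trans (abs_of_nonneg (HH_nonneg hg _))
    have hm : AEStronglyMeasurable (fun v => ∫ w, HH g (v, w)) volume :=
      ((HH_meas hg).stronglyMeasurable.integral_prod_right').aestronglyMeasurable
    rw [e1]
    refine Integrable.mono' (g := fun v => 10 * (1 + Kw g) * (g v / ang v ^ 3) +
      3 * Real.sqrt (1 + Kw g) * (g v / ang v ^ 2)) ?_ hm (Eventually.of_forall fun v => ?_)
    · exact (i3.const_mul _).add (i2.const_mul _)
    · have h0 : 0 ≤ ∫ w, HH g (v, w) := integral_nonneg fun w => HH_nonneg hg _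
      rw [Real.norm_eq_abs, abs_of_nonneg h0, sec_eq]
      exact sec_le hg v

theorem HH_le {g : V → ℝ} (hg : Clw g) (i2 : Integrable (fun v => g v / ang v ^ 2))
    (i3 : Integrable (fun v => g v / ang v ^ 3)) :
    ∫ p, HH g p ∂(volume.prod volume) ≤ 10 * (1 + Kw g) * (∫ v, g v / ang v ^ 3) +
      3 * Real.sqrt (1 + Kw g) * ∫ v, g v / ang v ^ 2 := by
  rw [integral_prod _ (HH_int hg i2 i3), ← integral_const_mul, ← integral_const_mul,
    ← integral_add (i3.const_mul _) (i2.const_mul _)]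
  refine integral_mono_of_nonneg (Eventually.of_forall fun v => ?_)
    ((i3.const_mul _).add (i2.const_mul _)) (Eventually.of_forall fun v => ?_)
  · exact integral_nonneg fun w => HH_nonneg hg _
  · show ∫ w, HH g (v, w) ≤ _
    rw [sec_eq]
    exact sec_le hg v

end WRateAux

open WRateAux

theorem rateW : ∃ C : ℝ, 0 < C ∧ ∀ g : V → ℝ, Clw g → ∀ R : ℝ, 1 ≤ R →
    |∫ v, phiW R v * QL g v| ≤ C * ((1 + Kw g) * (1 + Real.log (1 + Kw g))) := by
  obtain ⟨A, hA, hφ⟩ := phiW_bounds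
  obtain ⟨C₁, hC₁, hI⟩ := int_ang23
  refine ⟨120 * A * (13 * C₁), by positivity, ?_⟩
  intro g hg R hR
  obtain ⟨i2, i3, b2, b3⟩ := hI g hg
  obtain ⟨h1, h2⟩ := hφ R hR
  obtain ⟨hF, hE⟩ := weak_symW g hg (phiW R) (phiW_smooth R) (phiW_compact (by linarith))
  have hK := hg.Kw_nonneg
  have hlog : 0 ≤ Real.log (1 + Kw g) := Real.log_nonneg (by linarith)
  have hHi := HH_int hg i2 i3
  have hHs : Integrable (fun p : V × V => HH g p.swap) (volume.prod volume) := hHi.swap
  have hsw : ∫ p : V × V, HH g p.swap ∂(volume.prod volume) =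
      ∫ p, HH g p ∂(volume.prod volume) := integral_prod_swap _
  rw [hE]
  have hbd : ∀ p : V × V, ‖g p.1 * g p.2 * Kf (phiW R) p.1 p.2‖ ≤
      60 * A * (HH g p + HH g p.swap) := by
    rintro ⟨v, w⟩
    have h3 := Kf_bound_ang (phiW R) (phiW_smooth R) A h1 h2 v w
    have hv := hg.nonneg v
    have hw := hg.nonneg w
    have hgg : 0 ≤ g v * g w := mul_nonneg hv hw
    rw [Real.norm_eq_abs, abs_mul, abs_of_nonneg hgg]
    refine (mul_le_mul_of_nonneg_left h3 hgg).trans (le_of_eq ?_)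
    show g v * g w * (60 * A * (1 / ang v ^ 3 + 1 / ang w ^ 3) / ‖v - w‖) =
      60 * A * (g v / ang v ^ 3 * (g w / ‖v - w‖) + g w / ang w ^ 3 * (g v / ‖w - v‖))
    rw [norm_sub_rev w v]
    ring
  have hmain : |∫ p : V × V, g p.1 * g p.2 * Kf (phiW R) p.1 p.2 ∂(volume.prod volume)| ≤
      120 * A * ∫ p, HH g p ∂(volume.prod volume) := by
    rw [← Real.norm_eq_abs]
    refine (norm_integral_le_integral_norm _).trans ?_
    have h4 : ∫ p : V × V, ‖g p.1 * g p.2 * Kf (phiW R) p.1 p.2‖ ∂(volume.prod volume) ≤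
        ∫ p : V × V, 60 * A * (HH g p + HH g p.swap) ∂(volume.prod volume) :=
      integral_mono hF.norm ((hHi.add hHs).const_mul _) hbd
    refine h4.trans (le_of_eq ?_)
    rw [integral_const_mul, integral_add hHi hHs, hsw]
    ring
  refine hmain.trans ?_
  have h5 := HH_le hg i2 i3
  have hr : 0 ≤ Real.sqrt (1 + Kw g) := Real.sqrt_nonneg _
  have hr2 : Real.sqrt (1 + Kw g) * Real.sqrt (1 + Kw g) = 1 + Kw g :=
    Real.mul_self_sqrt (by linarith)
  have h6 : 10 * (1 + Kw g) * (∫ v, g v / ang v ^ 3) ≤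
      10 * (1 + Kw g) * (C₁ * (1 + Real.log (1 + Kw g))) :=
    mul_le_mul_of_nonneg_left b3 (by linarith)
  have h7 : 3 * Real.sqrt (1 + Kw g) * (∫ v, g v / ang v ^ 2) ≤ 3 * C₁ * (1 + Kw g) := by
    have h8 := mul_le_mul_of_nonneg_left b2 (by linarith : 0 ≤ 3 * Real.sqrt (1 + Kw g))
    refine h8.trans (le_of_eq ?_)
    calc 3 * Real.sqrt (1 + Kw g) * (C₁ * Real.sqrt (1 + Kw g)) =
        3 * C₁ * (Real.sqrt (1 + Kw g) * Real.sqrt (1 + Kw g)) := by ring
      _ = 3 * C₁ * (1 + Kw g) := by rw [hr2]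
  have h9 : 3 * C₁ * (1 + Kw g) ≤ 3 * C₁ * ((1 + Kw g) * (1 + Real.log (1 + Kw g))) := by
    apply mul_le_mul_of_nonneg_left _ (by positivity)
    nlinarith
  have h10 : ∫ p, HH g p ∂(volume.prod volume) ≤
      13 * C₁ * ((1 + Kw g) * (1 + Real.log (1 + Kw g))) := by
    have e1 : 10 * (1 + Kw g) * (C₁ * (1 + Real.log (1 + Kw g))) =
      10 * C₁ * ((1 + Kw g) * (1 + Real.log (1 + Kw g))) := by ring
    linarith
  calc 120 * A * ∫ p, HH g p ∂(volume.prod volume) ≤
      120 * A * (13 * C₁ * ((1 + Kw g) * (1 + Real.log (1 + Kw g)))) :=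
        mul_le_mul_of_nonneg_left h10 (by positivity)
    _ = 120 * A * (13 * C₁) * ((1 + Kw g) * (1 + Real.log (1 + Kw g))) := by ring

end Pool.Agent.Landau
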