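import Pool.Agent.LandauG.WTest
import Pool.Agent.Landau.TimeDer

/-!
# LandauG, module WTime: localised integrals as functions of time, for solutions of class `SolW`

`timeW_cont`: `f` is continuous on `Iic 0 ×ˢ univ`, so bounded on compact sets; dominated convergence
(`continuousOn` of a parametric integral over a compact support; see `Landau/TimeDer.lean`).
`timeW_deriv`: as `timeDer_lin` in `Landau/TimeDer.lean` (`td_gen` needs only the joint continuity of
`QL (f t) v` on `Iio 0 ×ˢ univ`, which is proved exactly as `joint_QL` in `Landau/Joint.lean`: only `smooth` and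
`pde` are used).
`timeW_lip`: mean value inequality on `[s, t]`: continuity on `[s, t]` and derivative on the open interval.
-/

set_option autoImplicit false

namespace Pool.Agent.Landau

open MeasureTheory Set Filter Topology

theorem timeW_joint (f : ℝ → V → ℝ) (hf : SolW f) :
    ContinuousOn (fun p : ℝ × V => QL (f p.1) p.2) (Iio (0 : ℝ) ×ˢ univ) := by
  have h0 : ContinuousOn (fderiv ℝ (fun p : ℝ × V => f p.1 p.2)) (Iio (0 : ℝ) ×ˢ univ) :=
    hf.smooth.continuousOn_fderiv_of_isOpen joint_open (by exact_mod_cast le_top)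
  have h := h0.clm_apply (continuousOn_const (c := ((1 : ℝ), (0 : V))))
  refine h.congr fun p hp => ?_
  have h1 : HasFDerivAt (fun p : ℝ × V => f p.1 p.2)
      (fderiv ℝ (fun p : ℝ × V => f p.1 p.2) p) p := by
    have h2 := hf.smooth.contDiffAt (joint_open.mem_nhds hp)
    exact (h2.differentiableAt (by simp)).hasFDerivAt
  obtain ⟨t, v⟩ := p
  have h2 : HasDerivAt (fun s : ℝ => (s, v)) ((1 : ℝ), (0 : V)) t :=
    (hasDerivAt_id t).prodMk (hasDerivAt_const t v)
  have h3 : HasDerivAt ((fun p : ℝ × V => f p.1 p.2) ∘ fun s : ℝ => (s, v))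
      (fderiv ℝ (fun p : ℝ × V => f p.1 p.2) (t, v) ((1 : ℝ), (0 : V))) t :=
    HasFDerivAt.comp_hasDerivAt (f := fun s : ℝ => (s, v)) t h1 h2
  have ht : t < 0 := hp.1
  exact (hf.pde t ht v).unique h3

theorem timeW_cont (f : ℝ → V → ℝ) (hf : SolW f) (φ : V → ℝ) (hφ : Continuous φ)
    (hc : HasCompactSupport φ) : ContinuousOn (fun t => ∫ v, φ v * f t v) (Iic (0 : ℝ)) := by
  refine continuousOn_of_dominated (bound := fun v => ‖φ v‖) ?_ ?_ ?_ ?_
  · intro t ht
    exact (hφ.mul (hf.cls t ht).cont).aestronglyMeasurable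
  · intro t ht
    refine Eventually.of_forall fun v => ?_
    rw [norm_mul]
    exact mul_le_of_le_one_right (norm_nonneg _) ((hf.cls t ht).abs_le_one v)
  · exact hφ.norm.integrable_of_hasCompactSupport hc.norm
  · refine Eventually.of_forall fun v => ?_
    refine continuousOn_const.mul ?_
    have h1 : ContinuousOn (fun t : ℝ => ((t, v) : ℝ × V)) (Iic (0 : ℝ)) := by fun_prop
    exact hf.cont.comp h1 (fun t ht => ⟨ht, mem_univ _⟩)

theorem timeW_deriv (f : ℝ → V → ℝ) (hf : SolW f) (φ : V → ℝ) (hφ : Continuous φ)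
    (hc : HasCompactSupport φ) (t : ℝ) (ht : t < 0) :
    HasDerivAt (fun s => ∫ v, φ v * f s v) (∫ v, φ v * QL (f t) v) t := by
  exact td_gen f (fun s => QL (f s)) φ hφ hc t ht (fun s hs => (hf.cls s hs.le).cont)
    (timeW_joint f hf) (fun s hs v => hf.pde s hs v)

theorem timeW_lip (f : ℝ → V → ℝ) (hf : SolW f) (φ : V → ℝ) (hφ : Continuous φ)
    (hc : HasCompactSupport φ) (s t : ℝ) (hst : s ≤ t) (ht : t ≤ 0) (b : ℝ)
    (hb : ∀ τ ∈ Ioo s t, |∫ v, φ v * QL (f τ) v| ≤ b) :
    |(∫ v, φ v * f t v) - ∫ v, φ v * f s v| ≤ b * (t - s) := by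
  rcases hst.eq_or_lt with rfl | hlt
  · simp
  · obtain ⟨c, hc1, hc2⟩ := exists_hasDerivAt_eq_slope (fun s => ∫ v, φ v * f s v)
      (fun s => ∫ v, φ v * QL (f s) v) hlt
      ((timeW_cont f hf φ hφ hc).mono fun x hx => hx.2.trans ht)
      (fun x hx => timeW_deriv f hf φ hφ hc x (lt_of_lt_of_le hx.2 ht))
    have h1 := hb c hc1
    have h2 : 0 < t - s := by linarith
    rw [hc2, abs_div, abs_of_pos h2, div_le_iff₀ h2] at h1
    exact h1

end Pool.Agent.Landau
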