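import Pool.Agent.LandauG.WPot
import Pool.Agent.LandauG.WWeak
import Pool.Agent.LandauG.WKer

/-!
# LandauG, module WRateB: rates of change of localised mass and energy

`rate_chi`, with `R = ρ ^ 3`, `ρ ≥ 1`, `K = Kw g`, `C0` from `chi_bounds`, `Z = {v : R ≤ ‖v‖ ≤ 2 R}`.  If neither `v` nor `w` is in
`Z` then `Kf (chi R) v w = 0` (`Kf_zero_of`: `chi R` is locally constant at `v` and at `w`, namely `1` for
`‖v‖ < R` and `0` for `‖v‖ > 2 R`).  Otherwise `|Kf (chi R) v w| ≤ 15 (C0 / R ^ 2) / ‖v - w‖` (`Kf_bound`).  So by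
`weak_symW` and symmetry `|∫ chi R * QL g| ≤ (30 C0 / R ^ 2) ∫_Z g v (∫ g w / ‖v - w‖ dw) dv`.  For `v ∈ Z`, `ang v ≤ 4 R`, so
`pot_bound` with `r = ρ` gives the inner integral at most `7 ρ ^ 2 + 12 ρ ^ 2 K + 3 K ≤ 22 ρ ^ 2 (1 + K)`, and
`∫_Z g ≤ ∫_{‖v‖ ≤ 2 R} g ≤ 4 R K`.  Total: `30 C0 * 22 * 4 * ρ ^ 2 (1 + K) K R / R ^ 2 ≤ C (1 + K) ^ 2 / ρ`.

`rate_energy`: `g` integrable, `R ≥ 1`.  The second derivatives of `‖v‖ ^ 2 * chi R v` are bounded by `C0`, and this function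
is `‖v‖ ^ 2` on `‖v‖ < R`: as in `weak_bound` (`Landau/WBound.lean`; the proof there works for integrable `g` with
`weak_symW` instead of `weak_sym`) `|∫ ‖v‖ ^ 2 chi R QL g| ≤ 30 C0 ∫_{R ≤ ‖v‖} g v (∫ g w / ‖v - w‖ dw) dv`, and the inner
integral is at most `7 + ∫ g` (`int_inv` with `r = 1`).
-/

set_option autoImplicit false

namespace Pool.Agent.Landau

open MeasureTheory Set Filter Topology

/-- the weak form is controlled by the particles in `Z`, if the kernel vanishes off `Z` -/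
theorem WRateB_gen (g : V → ℝ) (hg : Clw g) (φ : V → ℝ) (hφ : ContDiff ℝ (⊤ : ℕ∞) φ)
    (hc : HasCompactSupport φ) (Λ : ℝ) (hΛ : ∀ i j v, |pd i (pd j φ) v| ≤ Λ) (Z : Set V)
    (hZ : MeasurableSet Z) (h0 : ∀ v ∉ Z, ∀ w ∉ Z, Kf φ v w = 0) (hgZ : IntegrableOn g Z) (B : ℝ)
    (hB : ∀ v ∈ Z, ∫ w, g w / ‖v - w‖ ≤ B) :
    |∫ v, φ v * QL g v| ≤ 30 * Λ * (B * ∫ v in Z, g v) := by
  obtain ⟨hF, hw⟩ := weak_symW g hg φ hφ hc
  have hΛ0 : 0 ≤ Λ := (abs_nonneg _).trans (hΛ 0 0 0)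
  obtain ⟨H, hH⟩ : ∃ H : V × V → ℝ, H = fun p => g p.1 * g p.2 / ‖p.1 - p.2‖ := ⟨_, rfl⟩
  have hgm : Measurable g := hg.cont.measurable
  have hHm : Measurable H := by
    rw [hH]
    exact ((hgm.comp measurable_fst).mul (hgm.comp measurable_snd)).div
      (measurable_fst.sub measurable_snd).norm
  have hH0 : ∀ p, 0 ≤ H p := by
    intro p
    rw [hH]
    exact div_nonneg (mul_nonneg (hg.nonneg _) (hg.nonneg _)) (norm_nonneg _)
  have hZ1 : MeasurableSet (Prod.fst ⁻¹' Z : Set (V × V)) := measurable_fst hZ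
  obtain ⟨K1, hK1⟩ : ∃ K1 : V × V → ℝ, K1 = (Prod.fst ⁻¹' Z).indicator H := ⟨_, rfl⟩
  have hK1m : Measurable K1 := by rw [hK1]; exact hHm.indicator hZ1
  have hK10 : ∀ p, 0 ≤ K1 p := by
    intro p
    rw [hK1]
    exact Set.indicator_nonneg (fun p _ => hH0 p) p
  have hin : ∀ v ∈ Z, ∀ w, K1 (v, w) = g v * (g w / ‖v - w‖) := by
    intro v hv w
    rw [hK1, Set.indicator_of_mem (s := Prod.fst ⁻¹' Z) (a := (v, w)) hv H, hH]
    ring
  have hout : ∀ v ∉ Z, ∀ w, K1 (v, w) = 0 := by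
    intro v hv w
    rw [hK1]
    exact Set.indicator_of_notMem (s := Prod.fst ⁻¹' Z) (a := (v, w)) hv H
  have hI : ∀ v, ∫ w, K1 (v, w) = Z.indicator (fun v => g v * ∫ w, g w / ‖v - w‖) v := by
    intro v
    by_cases hv : v ∈ Z
    · rw [Set.indicator_of_mem hv]
      simp only [hin v hv]
      rw [integral_const_mul]
    · rw [Set.indicator_of_notMem hv]
      simp only [hout v hv]
      simp
  have hpot0 : ∀ v, 0 ≤ ∫ w, g w / ‖v - w‖ := fun v =>
    integral_nonneg fun w => div_nonneg (hg.nonneg w) (norm_nonneg _)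
  have hle : ∀ v, Z.indicator (fun v => g v * ∫ w, g w / ‖v - w‖) v ≤
      Z.indicator (fun v => B * g v) v := by
    intro v
    by_cases hv : v ∈ Z
    · rw [Set.indicator_of_mem hv, Set.indicator_of_mem hv, mul_comm B]
      exact mul_le_mul_of_nonneg_left (hB v hv) (hg.nonneg v)
    · rw [Set.indicator_of_notMem hv, Set.indicator_of_notMem hv]
  have hge : ∀ v, 0 ≤ Z.indicator (fun v => g v * ∫ w, g w / ‖v - w‖) v := by
    intro v
    exact Set.indicator_nonneg (fun v _ => mul_nonneg (hg.nonneg v) (hpot0 v)) v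
  have hBi : Integrable (Z.indicator (fun v => B * g v)) :=
    (integrable_indicator_iff hZ).2 (hgZ.const_mul B)
  have hK1i : Integrable K1 (volume.prod volume) := by
    rw [integrable_prod_iff hK1m.aestronglyMeasurable]
    constructor
    · refine Eventually.of_forall fun v => ?_
      by_cases hv : v ∈ Z
      · simp only [hin v hv]
        exact (pot_int g hg v).const_mul _
      · simp only [hout v hv]
        exact integrable_zero _ _ _
    · have e1 : (fun v => ∫ w, ‖K1 (v, w)‖) = fun v =>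
          Z.indicator (fun v => g v * ∫ w, g w / ‖v - w‖) v := by
        funext v
        rw [← hI v]
        refine integral_congr_ae (Eventually.of_forall fun w => ?_)
        exact (Real.norm_eq_abs _).trans (abs_of_nonneg (hK10 _))
      have e2 : AEStronglyMeasurable (fun v => ∫ w, ‖K1 (v, w)‖) volume :=
        (hK1m.norm.aestronglyMeasurable (μ := (volume : Measure V).prod volume)).integral_prod_right'
      refine hBi.mono' e2 (Eventually.of_forall fun v => ?_)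
      have e3 := congrFun e1 v
      rw [e3, Real.norm_eq_abs, abs_of_nonneg (hge v)]
      exact hle v
  have hI1 : ∫ p, K1 p ∂(volume.prod volume) ≤ B * ∫ v in Z, g v := by
    rw [integral_prod K1 hK1i]
    calc ∫ v, ∫ w, K1 (v, w) ≤ ∫ v, Z.indicator (fun v => B * g v) v := by
          refine integral_mono hK1i.integral_prod_left hBi fun v => ?_
          simp only
          rw [hI v]
          exact hle v
      _ = ∫ v in Z, B * g v := integral_indicator hZ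
      _ = B * ∫ v in Z, g v := integral_const_mul _ _
  obtain ⟨K2, hK2⟩ : ∃ K2 : V × V → ℝ, K2 = fun p => K1 p.swap := ⟨_, rfl⟩
  have hK2i : Integrable K2 (volume.prod volume) := by rw [hK2]; exact hK1i.swap
  have hK20 : ∀ p, 0 ≤ K2 p := fun p => by rw [hK2]; exact hK10 _
  have hI2 : ∫ p, K2 p ∂(volume.prod volume) = ∫ p, K1 p ∂(volume.prod volume) := by
    rw [hK2]
    exact integral_prod_swap K1
  have hbd : ∀ p : V × V, ‖g p.1 * g p.2 * Kf φ p.1 p.2‖ ≤ 15 * Λ * (K1 p + K2 p) := by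
    intro p
    have h1 : ‖g p.1 * g p.2 * Kf φ p.1 p.2‖ ≤ 15 * Λ * H p := by
      rw [Real.norm_eq_abs, abs_mul, abs_of_nonneg (mul_nonneg (hg.nonneg _) (hg.nonneg _)), hH]
      calc g p.1 * g p.2 * |Kf φ p.1 p.2| ≤ g p.1 * g p.2 * (15 * Λ / ‖p.1 - p.2‖) :=
            mul_le_mul_of_nonneg_left (Kf_bound φ hφ Λ hΛ _ _)
              (mul_nonneg (hg.nonneg _) (hg.nonneg _))
        _ = 15 * Λ * (g p.1 * g p.2 / ‖p.1 - p.2‖) := by ring
    by_cases hp1 : p.1 ∈ Z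
    · have h2 : K1 p = H p := by
        rw [hK1]
        exact Set.indicator_of_mem (s := Prod.fst ⁻¹' Z) hp1 H
      refine h1.trans (mul_le_mul_of_nonneg_left ?_ (by positivity))
      rw [h2]
      linarith [hK20 p]
    · by_cases hp2 : p.2 ∈ Z
      · have h2 : K2 p = H p := by
          rw [hK2, hK1]
          have e1 : (Prod.fst ⁻¹' Z).indicator H p.swap = H p.swap :=
            Set.indicator_of_mem (s := Prod.fst ⁻¹' Z) (a := p.swap) hp2 H
          simp only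
          rw [e1, hH]
          simp only [Prod.fst_swap, Prod.snd_swap]
          rw [norm_sub_rev, mul_comm (g p.2)]
        refine h1.trans (mul_le_mul_of_nonneg_left ?_ (by positivity))
        rw [h2]
        linarith [hK10 p]
      · rw [h0 p.1 hp1 p.2 hp2, mul_zero, norm_zero]
        exact mul_nonneg (by positivity) (add_nonneg (hK10 p) (hK20 p))
  rw [hw, ← Real.norm_eq_abs]
  refine (norm_integral_le_of_norm_le ((hK1i.add hK2i).const_mul (15 * Λ))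
    (Eventually.of_forall hbd)).trans ?_
  rw [integral_const_mul]
  have h5 : ∫ p, (K1 + K2) p ∂(volume.prod volume) =
      ∫ p, K1 p ∂(volume.prod volume) + ∫ p, K2 p ∂(volume.prod volume) :=
    integral_add hK1i hK2i
  rw [h5, hI2]
  calc 15 * Λ * (∫ p, K1 p ∂(volume.prod volume) + ∫ p, K1 p ∂(volume.prod volume))
      = 30 * Λ * ∫ p, K1 p ∂(volume.prod volume) := by ring
    _ ≤ 30 * Λ * (B * ∫ v in Z, g v) := mul_le_mul_of_nonneg_left hI1 (by positivity)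

theorem WRateB_pd_zero {φ : V → ℝ} {v : V} (i : Fin 3) (h : ∀ᶠ u in 𝓝 v, φ u = 0) :
    pd i φ v = 0 := by
  have h1 : φ =ᶠ[𝓝 v] fun _ => (0 : ℝ) := h
  rw [WBoundAux.pd_congr h1 i]
  unfold pd
  simp

theorem rate_chi : ∃ C : ℝ, 0 < C ∧ ∀ g : V → ℝ, Clw g → ∀ ρ : ℝ, 1 ≤ ρ →
    |∫ v, chi (ρ ^ 3) v * QL g v| ≤ C * (1 + Kw g) ^ 2 / ρ := by
  obtain ⟨C0, hC0, hb⟩ := chi_bounds
  refine ⟨1440 * C0, by positivity, fun g hg ρ hρ => ?_⟩
  obtain ⟨R, hR⟩ : ∃ R : ℝ, R = ρ ^ 3 := ⟨_, rfl⟩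
  have hρ0 : 0 < ρ := by linarith
  have hR1 : 1 ≤ R := by rw [hR]; exact one_le_pow₀ hρ
  have hR0 : 0 < R := by linarith
  rw [← hR]
  have hK := hg.Kw_nonneg
  have hZm : MeasurableSet {v : V | R ≤ ‖v‖ ∧ ‖v‖ ≤ 2 * R} :=
    (measurableSet_le measurable_const measurable_norm).inter
      (measurableSet_le measurable_norm measurable_const)
  have hoff : ∀ v ∉ {v : V | R ≤ ‖v‖ ∧ ‖v‖ ≤ 2 * R}, ∀ᶠ u in 𝓝 v, ∀ i, pd i (chi R) u = 0 := by
    intro v hv
    have hv' : ¬ (R ≤ ‖v‖ ∧ ‖v‖ ≤ 2 * R) := hv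
    rw [not_and_or, not_le, not_le] at hv'
    rcases hv' with hv | hv
    · have hopen : IsOpen {u : V | ‖u‖ < R} := isOpen_lt continuous_norm continuous_const
      filter_upwards [hopen.mem_nhds hv] with u hu i using pd_chi_inner hR0 hu i
    · have hopen : IsOpen {u : V | 2 * R < ‖u‖} := isOpen_lt continuous_const continuous_norm
      filter_upwards [hopen.mem_nhds hv] with u hu i using pd_chi_outer hR0 hu i
  have h0 : ∀ v ∉ {v : V | R ≤ ‖v‖ ∧ ‖v‖ ≤ 2 * R}, ∀ w ∉ {v : V | R ≤ ‖v‖ ∧ ‖v‖ ≤ 2 * R},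
      Kf (chi R) v w = 0 := by
    intro v hv w hw
    have e1 := hoff v hv
    have e2 := hoff w hw
    refine Kf_zero_of _ v w (fun i => e1.self_of_nhds i) (fun i => e2.self_of_nhds i)
      (fun i j => WRateB_pd_zero i (e1.mono fun u hu => hu j))
      (fun i j => WRateB_pd_zero i (e2.mono fun u hu => hu j))
  have hsub : {v : V | R ≤ ‖v‖ ∧ ‖v‖ ≤ 2 * R} ⊆ {v : V | ‖v‖ ≤ 2 * R} := fun v hv => hv.2
  have hgZ : IntegrableOn g {v : V | R ≤ ‖v‖ ∧ ‖v‖ ≤ 2 * R} :=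
    (hg.int_ball (2 * R)).mono_set hsub
  have hB : ∀ v ∈ {v : V | R ≤ ‖v‖ ∧ ‖v‖ ≤ 2 * R},
      ∫ w, g w / ‖v - w‖ ≤ 12 * ρ ^ 2 * (1 + Kw g) := by
    intro v hv
    have h1 := pot_bound g hg v ρ hρ0
    have h2 : ang v ≤ 3 * R := by
      have h3 := ang_le v
      have h4 := hv.2
      linarith
    have h3 : 3 * ang v * Kw g / ρ ≤ 9 * ρ ^ 2 * Kw g := by
      rw [div_le_iff₀ hρ0]
      have h4 : 3 * ang v * Kw g ≤ 3 * (3 * R) * Kw g := by
        refine mul_le_mul_of_nonneg_right ?_ hK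
        linarith
      have h5 : 3 * (3 * R) * Kw g = 9 * ρ ^ 2 * Kw g * ρ := by rw [hR]; ring
      linarith
    have h6 : 1 ≤ ρ ^ 2 := one_le_pow₀ hρ
    have h7 : Kw g ≤ ρ ^ 2 * Kw g := le_mul_of_one_le_left hK h6
    nlinarith
  have hmain := WRateB_gen g hg (chi R) (chi_smooth R) (chi_compact hR0) (C0 / R ^ 2)
    (hb R hR1).2.1 _ hZm h0 hgZ (12 * ρ ^ 2 * (1 + Kw g)) hB
  have hmass : ∫ v in {v : V | R ≤ ‖v‖ ∧ ‖v‖ ≤ 2 * R}, g v ≤ 4 * R * Kw g := by
    have h1 := hg.int_ball_le (R := 2 * R) (by linarith)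
    have h2 : ∫ v in {v : V | R ≤ ‖v‖ ∧ ‖v‖ ≤ 2 * R}, g v ≤ ∫ v in {v : V | ‖v‖ ≤ 2 * R}, g v :=
      setIntegral_mono_set (hg.int_ball (2 * R))
        (Eventually.of_forall fun v => hg.nonneg v) hsub.eventuallyLE
    linarith
  refine hmain.trans ?_
  have h8 : (30 : ℝ) * (C0 / R ^ 2) * (12 * ρ ^ 2 * (1 + Kw g) *
      ∫ v in {v : V | R ≤ ‖v‖ ∧ ‖v‖ ≤ 2 * R}, g v) ≤
      30 * (C0 / R ^ 2) * (12 * ρ ^ 2 * (1 + Kw g) * (4 * R * Kw g)) := by
    refine mul_le_mul_of_nonneg_left (mul_le_mul_of_nonneg_left hmass ?_) (by positivity)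
    positivity
  have h9 : (30 : ℝ) * (C0 / R ^ 2) * (12 * ρ ^ 2 * (1 + Kw g) * (4 * R * Kw g)) =
      1440 * C0 * ((1 + Kw g) * Kw g) / ρ := by
    rw [hR]
    field_simp
    ring
  have h10 : 1440 * C0 * ((1 + Kw g) * Kw g) / ρ ≤ 1440 * C0 * (1 + Kw g) ^ 2 / ρ := by
    refine div_le_div_of_nonneg_right (mul_le_mul_of_nonneg_left ?_ (by positivity)) hρ0.le
    nlinarith
  linarith

theorem rate_energy : ∃ C : ℝ, 0 < C ∧ ∀ g : V → ℝ, Clw g → Integrable g → ∀ R : ℝ, 1 ≤ R →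
    |∫ v, ‖v‖ ^ 2 * chi R v * QL g v| ≤
      C * (7 + ∫ v, g v) * ∫ v in {v : V | R ≤ ‖v‖}, g v := by
  obtain ⟨C0, hC0, hb⟩ := chi_bounds
  refine ⟨30 * C0, by positivity, fun g hg hgi R hR1 => ?_⟩
  have hR0 : 0 < R := by linarith
  have hZm : MeasurableSet {v : V | R ≤ ‖v‖} := measurableSet_le measurable_const measurable_norm
  have hin : ∀ v : V, ‖v‖ < R →
      ‖v‖ ^ 2 * chi R v = 0 + (∑ i : Fin 3, (fun _ => (0 : ℝ)) i * v i) + 1 * ‖v‖ ^ 2 := by
    intro v hv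
    rw [chi_one hR0 hv.le]
    simp
  have h0 : ∀ v ∉ {v : V | R ≤ ‖v‖}, ∀ w ∉ {v : V | R ≤ ‖v‖},
      Kf (fun u : V => ‖u‖ ^ 2 * chi R u) v w = 0 := fun v hv w hw =>
    Kf_zero _ R 0 (fun _ => 0) 1 hin v w (not_le.1 hv) (not_le.1 hw)
  have hmain := WRateB_gen g hg (fun u : V => ‖u‖ ^ 2 * chi R u)
    ((contDiff_norm_sq ℝ).mul (chi_smooth R)) ((chi_compact hR0).mul_left) C0
    (hb R hR1).2.2.2 _ hZm h0 hgi.integrableOn (7 + ∫ v, g v) (fun v _ => ?_)
  · refine hmain.trans (le_of_eq ?_)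
    ring
  · have h1 := (int_inv g hgi hg.nonneg hg.le_one v 1 one_pos).2
    simpa using h1

end Pool.Agent.Landau
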