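import Pool.Agent.LandauG.WBaire
import Pool.Agent.LandauG.WRateB

/-!
# LandauG, module WCons: finite mass (energy) at one time gives finite mass (energy) at all times

`chi_lip`: for `s, t ≤ 0` there is `B` with `Kw (f τ) ≤ B` between `s` and `t` (`Kw_bdd`), so by `timeW_lip`, `rate_chi`
`|∫ chi (ρ ^ 3) f t - ∫ chi (ρ ^ 3) f s| ≤ C (1 + B) ^ 2 |t - s| / ρ`.

`mass_at`: `ρ → ∞`: `∫ chi (ρ ^ 3) f t` is bounded for integrable `f s`, so `f t` is integrable (monotone convergence or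
Fatou: `chi R → 1` pointwise, `chi R ≥ 0`), and then both sides converge to the integrals.

`energy_at`: first `f s` is integrable (`f s ≤ 1` on the unit ball, `f s ≤ ‖v‖ ^ 2 f s` outside), so `mass_at`: all `f τ` have
the same mass `M`.  For `R = ρ ^ 3`, `ρ ≥ 1`, and `τ` between `s` and `t`:
`∫_{2 R ≤ ‖v‖} f τ ≤ M - ∫ chi R f τ ≤ (M - ∫ chi R f s) + C (1 + B) ^ 2 |t - s| / ρ =: η ρ`, which tends to `0` as
`ρ → ∞`.  So by `timeW_lip` and `rate_energy` (with `2 R` in the place of `R`),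
`|∫ ‖v‖ ^ 2 chi (2 R) f t - ∫ ‖v‖ ^ 2 chi (2 R) f s| ≤ C (7 + M) η ρ |t - s|`: bounded as `ρ → ∞`, so
`‖v‖ ^ 2 f t` is integrable (Fatou).
-/

set_option autoImplicit false

namespace Pool.Agent.Landau

open MeasureTheory Set Filter Topology

/-! ### auxiliary facts -/

theorem wcons_lip (f : ℝ → V → ℝ) (hf : SolW f) (φ : V → ℝ) (hφ : Continuous φ)
    (hc : HasCompactSupport φ) (s t : ℝ) (hs : s ≤ 0) (ht : t ≤ 0) (b : ℝ)
    (hb : ∀ τ, τ < 0 → min s t ≤ τ → |∫ v, φ v * QL (f τ) v| ≤ b) :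
    |(∫ v, φ v * f t v) - ∫ v, φ v * f s v| ≤ b * |t - s| := by
  rcases le_total s t with h | h
  · rw [abs_of_nonneg (sub_nonneg.2 h)]
    refine timeW_lip f hf φ hφ hc s t h ht b fun τ hτ => hb τ (hτ.2.trans_le ht) ?_
    rw [min_eq_left h]
    exact hτ.1.le
  · rw [abs_sub_comm, abs_of_nonpos (sub_nonpos.2 h), neg_sub]
    refine timeW_lip f hf φ hφ hc t s h hs b fun τ hτ => hb τ (hτ.2.trans_le hs) ?_
    rw [min_eq_right h]
    exact hτ.1.le

theorem wcons_chi_int {g : V → ℝ} (hg : Continuous g) {R : ℝ} (hR : 0 < R) :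
    Integrable (fun v => chi R v * g v) :=
  ((chi_smooth R).continuous.mul hg).integrable_of_hasCompactSupport (chi_compact hR).mul_right

/-- a nonnegative continuous function is integrable if the integrals against `chi` are bounded -/
theorem wcons_int {g : V → ℝ} (hg : Continuous g) (h0 : ∀ v, 0 ≤ g v) (m : ℝ)
    (h : ∀ n : ℕ, ∫ v, chi (((n : ℝ) + 1) ^ 3) v * g v ≤ m) : Integrable g := by
  have hR : ∀ n : ℕ, (0 : ℝ) < ((n : ℝ) + 1) ^ 3 := fun n => by positivity
  have hlim : Tendsto (fun n : ℕ => ((n : ℝ) + 1) ^ 3) atTop atTop := by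
    have h1 : Tendsto (fun n : ℕ => (n : ℝ) + 1) atTop atTop :=
      tendsto_atTop_add_const_right _ _ tendsto_natCast_atTop_atTop
    exact (tendsto_pow_atTop (by norm_num)).comp h1
  refine (aecover_closedBall (μ := (volume : Measure V)) (x := 0) hlim
    ).integrable_of_integral_bounded_of_nonneg_ae m (fun n => ?_) (Eventually.of_forall h0)
    (Eventually.of_forall fun n => ?_)
  · exact hg.continuousOn.integrableOn_compact (isCompact_closedBall _ _)
  · refine le_trans ?_ (h n)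
    have e : ∫ v in Metric.closedBall (0 : V) (((n : ℝ) + 1) ^ 3), g v =
        ∫ v in Metric.closedBall (0 : V) (((n : ℝ) + 1) ^ 3), chi (((n : ℝ) + 1) ^ 3) v * g v := by
      refine setIntegral_congr_fun Metric.isClosed_closedBall.measurableSet fun v hv => ?_
      rw [mem_closedBall_zero_iff] at hv
      rw [chi_one (hR n) hv, one_mul]
    rw [e]
    exact setIntegral_le_integral (wcons_chi_int hg (hR n))
      (Eventually.of_forall fun v => mul_nonneg (chi_nonneg _ _) (h0 v))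

theorem wcons_lim {g : V → ℝ} (hg : Integrable g) :
    Tendsto (fun n : ℕ => ∫ v, chi (((n : ℝ) + 1) ^ 3) v * g v) atTop (𝓝 (∫ v, g v)) := by
  have hR : ∀ n : ℕ, (0 : ℝ) < ((n : ℝ) + 1) ^ 3 := fun n => by positivity
  refine tendsto_integral_of_dominated_convergence (fun v => |g v|) (fun n => ?_) hg.abs
    (fun n => Eventually.of_forall fun v => ?_) (Eventually.of_forall fun v => ?_)
  · exact (chi_smooth _).continuous.aestronglyMeasurable.mul hg.aestronglyMeasurable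
  · rw [Real.norm_eq_abs, abs_mul, abs_of_nonneg (chi_nonneg _ _)]
    exact mul_le_of_le_one_left (abs_nonneg _) (chi_le_one _ _)
  · have h1 : ∀ᶠ n : ℕ in atTop, ‖v‖ ≤ (n : ℝ) + 1 := by
      have h2 : Tendsto (fun n : ℕ => (n : ℝ) + 1) atTop atTop :=
        tendsto_atTop_add_const_right _ _ tendsto_natCast_atTop_atTop
      exact h2.eventually_ge_atTop _
    refine tendsto_const_nhds.congr' ?_
    filter_upwards [h1] with n hn
    have h3 : (n : ℝ) + 1 ≤ ((n : ℝ) + 1) ^ 3 := by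
      have h4 : (1 : ℝ) ≤ (n : ℝ) + 1 := by
        have := Nat.cast_nonneg (α := ℝ) n
        linarith
      calc (n : ℝ) + 1 = ((n : ℝ) + 1) ^ 1 := (pow_one _).symm
        _ ≤ ((n : ℝ) + 1) ^ 3 := pow_le_pow_right₀ h4 (by norm_num)
    rw [chi_one (hR n) (hn.trans h3), one_mul]

theorem chi_lip (f : ℝ → V → ℝ) (hf : SolW f) (s t : ℝ) (hs : s ≤ 0) (ht : t ≤ 0) :
    ∃ C : ℝ, 0 ≤ C ∧ ∀ τ ∈ uIcc s t, ∀ ρ : ℝ, 1 ≤ ρ →
      |(∫ v, chi (ρ ^ 3) v * f τ v) - ∫ v, chi (ρ ^ 3) v * f s v| ≤ C / ρ := by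
  obtain ⟨B, hB⟩ := Kw_bdd f hf (min s t)
  obtain ⟨C₁, hC₁, hr⟩ := rate_chi
  have hB0 : 0 ≤ B := by
    have h1 : min s t ≤ 0 := (min_le_left _ _).trans hs
    exact ((hf.cls _ h1).Kw_nonneg).trans (hB (min s t) ⟨le_rfl, h1⟩)
  refine ⟨C₁ * (1 + B) ^ 2 * |t - s|, by positivity, ?_⟩
  intro τ hτ ρ hρ
  have hρ0 : 0 < ρ := by linarith
  have hR : 0 < ρ ^ 3 := by positivity
  have hτ0 : τ ≤ 0 := hτ.2.trans (max_le hs ht)
  have hτd : |τ - s| ≤ |t - s| := by
    have h1 := Set.abs_sub_left_of_mem_uIcc hτ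
    exact h1
  have h1 := wcons_lip f hf (chi (ρ ^ 3)) (chi_smooth _).continuous (chi_compact hR) s τ hs hτ0
    (C₁ * (1 + B) ^ 2 / ρ) ?_
  · refine h1.trans ?_
    calc C₁ * (1 + B) ^ 2 / ρ * |τ - s| ≤ C₁ * (1 + B) ^ 2 / ρ * |t - s| :=
          mul_le_mul_of_nonneg_left hτd (by positivity)
      _ = C₁ * (1 + B) ^ 2 * |t - s| / ρ := by ring
  · intro x hx hx'
    have hx0 : x ≤ 0 := hx.le
    have hmin : min s t ≤ min s τ := by
      refine le_min (min_le_left _ _) ?_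
      exact hτ.1
    have hKx := hB x ⟨hmin.trans hx', hx0⟩
    have hK0 := (hf.cls x hx0).Kw_nonneg
    refine (hr (f x) (hf.cls x hx0) ρ hρ).trans ?_
    refine div_le_div_of_nonneg_right ?_ hρ0.le
    refine mul_le_mul_of_nonneg_left ?_ hC₁.le
    exact pow_le_pow_left₀ (by linarith) (by linarith) 2

theorem mass_at (f : ℝ → V → ℝ) (hf : SolW f) (s t : ℝ) (hs : s ≤ 0) (ht : t ≤ 0)
    (hi : Integrable (f s)) : Integrable (f t) ∧ ∫ v, f t v = ∫ v, f s v := by
  obtain ⟨C, hC, hl⟩ := chi_lip f hf s t hs ht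
  have hl' : ∀ n : ℕ, |(∫ v, chi (((n : ℝ) + 1) ^ 3) v * f t v) -
      ∫ v, chi (((n : ℝ) + 1) ^ 3) v * f s v| ≤ C / ((n : ℝ) + 1) := fun n =>
    hl t Set.right_mem_uIcc _ (by
      have := Nat.cast_nonneg (α := ℝ) n
      linarith)
  have hct := (hf.cls t ht).cont
  have hcs := (hf.cls s hs).cont
  have hint : Integrable (f t) := by
    refine wcons_int hct (hf.cls t ht).nonneg ((∫ v, f s v) + C) fun n => ?_
    have h1 := (abs_le.1 (hl' n)).2
    have h2 : C / ((n : ℝ) + 1) ≤ C := by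
      refine div_le_self hC ?_
      have := Nat.cast_nonneg (α := ℝ) n
      linarith
    have h3 : ∫ v, chi (((n : ℝ) + 1) ^ 3) v * f s v ≤ ∫ v, f s v := by
      refine integral_mono (wcons_chi_int hcs (by positivity)) hi fun v => ?_
      exact mul_le_of_le_one_left ((hf.cls s hs).nonneg v) (chi_le_one _ _)
    linarith
  refine ⟨hint, ?_⟩
  have l1 := wcons_lim hint
  have l2 := wcons_lim hi
  have l3 : Tendsto (fun n : ℕ => C / ((n : ℝ) + 1)) atTop (𝓝 0) := by
    have h2 : Tendsto (fun n : ℕ => (n : ℝ) + 1) atTop atTop :=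
      tendsto_atTop_add_const_right _ _ tendsto_natCast_atTop_atTop
    exact h2.const_div_atTop C
  have l4 : Tendsto (fun n : ℕ => (∫ v, chi (((n : ℝ) + 1) ^ 3) v * f t v) -
      ∫ v, chi (((n : ℝ) + 1) ^ 3) v * f s v) atTop (𝓝 0) :=
    squeeze_zero_norm (fun n => by rw [Real.norm_eq_abs]; exact hl' n) l3
  have l5 := tendsto_nhds_unique l4 (l1.sub l2)
  linarith

theorem energy_at (f : ℝ → V → ℝ) (hf : SolW f) (s t : ℝ) (hs : s ≤ 0) (ht : t ≤ 0)
    (hi : Integrable (fun v => ‖v‖ ^ 2 * f s v)) :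
    Integrable (f t) ∧ Integrable (fun v => ‖v‖ ^ 2 * f t v) := by
  have hcs := hf.cls s hs
  have hct := hf.cls t ht
  have his : Integrable (f s) := by
    have hb : Integrable (fun v : V => (Metric.closedBall (0 : V) 1).indicator (fun _ => (1 : ℝ)) v +
        ‖v‖ ^ 2 * f s v) := by
      refine Integrable.add ?_ hi
      refine (integrable_indicator_iff Metric.isClosed_closedBall.measurableSet).2 ?_
      exact continuousOn_const.integrableOn_compact (isCompact_closedBall _ _)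
    refine hb.mono' hcs.cont.aestronglyMeasurable (Eventually.of_forall fun v => ?_)
    rw [Real.norm_eq_abs, abs_of_nonneg (hcs.nonneg v)]
    by_cases hv : v ∈ Metric.closedBall (0 : V) 1
    · rw [Set.indicator_of_mem hv]
      have h1 := hcs.le_one v
      have h2 : 0 ≤ ‖v‖ ^ 2 * f s v := mul_nonneg (sq_nonneg _) (hcs.nonneg v)
      linarith
    · rw [Set.indicator_of_notMem hv, zero_add]
      rw [mem_closedBall_zero_iff, not_le] at hv
      have h1 : 1 ≤ ‖v‖ ^ 2 := by nlinarith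
      exact le_mul_of_one_le_left (hcs.nonneg v) h1
  refine ⟨(mass_at f hf s t hs ht his).1, ?_⟩
  obtain ⟨C, hC, hr⟩ := rate_energy
  obtain ⟨M, hM⟩ : ∃ M, M = ∫ v, f s v := ⟨_, rfl⟩
  have hM0 : 0 ≤ M := by
    rw [hM]
    exact integral_nonneg hcs.nonneg
  have hcn : Continuous (fun v : V => ‖v‖ ^ 2) := continuous_norm.pow 2
  refine wcons_int (hcn.mul hct.cont) (fun v => mul_nonneg (sq_nonneg _) (hct.nonneg v))
    ((∫ v, ‖v‖ ^ 2 * f s v) + C * (7 + M) * M * |t - s|) fun n => ?_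
  obtain ⟨R, hR⟩ : ∃ R : ℝ, R = ((n : ℝ) + 1) ^ 3 := ⟨_, rfl⟩
  rw [← hR]
  have hn1 : (1 : ℝ) ≤ (n : ℝ) + 1 := by
    have := Nat.cast_nonneg (α := ℝ) n
    linarith
  have hR1 : 1 ≤ R := by
    rw [hR]
    exact one_le_pow₀ hn1
  have hR0 : 0 < R := by linarith
  have hcc : HasCompactSupport (fun v : V => ‖v‖ ^ 2 * chi R v) := by
    refine HasCompactSupport.intro (isCompact_closedBall (0 : V) (2 * R)) fun v hv => ?_
    rw [mem_closedBall_zero_iff, not_le] at hv
    rw [chi_zero hR0 hv.le, mul_zero]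
  have hcd : Continuous (fun v : V => ‖v‖ ^ 2 * chi R v) := hcn.mul (chi_smooth R).continuous
  have h1 := wcons_lip f hf (fun v => ‖v‖ ^ 2 * chi R v) hcd hcc s t hs ht (C * (7 + M) * M) ?_
  · have e1 : ∀ g : V → ℝ, ∫ v, ‖v‖ ^ 2 * chi R v * g v = ∫ v, chi R v * (‖v‖ ^ 2 * g v) := by
      intro g
      refine integral_congr_ae (Eventually.of_forall fun v => ?_)
      simp only
      ring
    rw [e1, e1] at h1
    have h2 := (abs_le.1 h1).2
    have h3 : ∫ v, chi R v * (‖v‖ ^ 2 * f s v) ≤ ∫ v, ‖v‖ ^ 2 * f s v := by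
      refine integral_mono (wcons_chi_int (hcn.mul hcs.cont) hR0) hi fun v => ?_
      exact mul_le_of_le_one_left (mul_nonneg (sq_nonneg _) (hcs.nonneg v)) (chi_le_one _ _)
    linarith
  · intro τ hτ _
    have hτc := hf.cls τ hτ.le
    obtain ⟨m1, m2⟩ := mass_at f hf s τ hs hτ.le his
    refine (hr (f τ) hτc m1 R hR1).trans ?_
    rw [m2, ← hM]
    refine mul_le_mul_of_nonneg_left ?_ (by positivity)
    calc ∫ v in {v : V | R ≤ ‖v‖}, f τ v ≤ ∫ v, f τ v :=
          setIntegral_le_integral m1 (Eventually.of_forall hτc.nonneg)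
      _ = M := by rw [m2, hM]

end Pool.Agent.Landau
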