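import Pool.Agent.LandauG.WCons

/-!
# LandauG, module WToSol: from the hypotheses of the problem to `SolW` and to `Sol`

`to_solW` as `to_sol` in `Landau/ToSol.lean` (the slice at `t = 0` is smooth because `v ↦ (0, v)` maps into
`Iic 0 ×ˢ univ`).  `sol_of_solW`: `energy_at` from the time `t₀`.
-/

set_option autoImplicit false

namespace Pool.Agent.Landau

open MeasureTheory Set Filter Topology

theorem to_solW (f : ℝ → V → ℝ)
    (hs : ContDiffOn ℝ (⊤ : ℕ∞) (fun p : ℝ × V => f p.1 p.2) (Set.Iic (0 : ℝ) ×ˢ Set.univ))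
    (h01 : ∀ t ≤ (0 : ℝ), ∀ v, 0 ≤ f t v ∧ f t v ≤ 1)
    (hi : ∀ t ≤ (0 : ℝ), Integrable (fun v => f t v / Real.sqrt (1 + ‖v‖ ^ 2)))
    (hpde : ∀ t < (0 : ℝ), ∀ v, deriv (fun s => f s v) t = QL (f t) v) : SolW f := by
  have hsub : (Iio (0 : ℝ) ×ˢ (univ : Set V)) ⊆ Iic (0 : ℝ) ×ˢ univ :=
    prod_mono Iio_subset_Iic_self (subset_refl _)
  have hs' := hs.mono hsub
  have hopen : IsOpen (Iio (0 : ℝ) ×ˢ (univ : Set V)) := isOpen_Iio.prod isOpen_univ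
  refine ⟨hs.continuousOn, hs', fun t ht => ⟨?_, fun v => (h01 t ht v).1,
    fun v => (h01 t ht v).2, hi t ht⟩, fun t ht v => ?_⟩
  · have h1 : ContDiff ℝ (⊤ : ℕ∞) (fun v : V => (t, v)) := by fun_prop
    have h2 : ContDiffOn ℝ (⊤ : ℕ∞) (fun v : V => f t v) univ :=
      hs.comp (s := univ) h1.contDiffOn (fun v _ => ⟨ht, mem_univ _⟩)
    exact contDiffOn_univ.1 h2
  · have hat : ContDiffAt ℝ (⊤ : ℕ∞) (fun p : ℝ × V => f p.1 p.2) (t, v) :=
      hs'.contDiffAt (hopen.mem_nhds ⟨ht, mem_univ _⟩)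
    have hd : DifferentiableAt ℝ (fun p : ℝ × V => f p.1 p.2) (t, v) :=
      hat.differentiableAt (by simp)
    have hd1 : DifferentiableAt ℝ (fun s : ℝ => (s, v)) t := by fun_prop
    have hd2 : DifferentiableAt ℝ (fun s => f s v) t :=
      DifferentiableAt.comp (g := fun p : ℝ × V => f p.1 p.2) (f := fun s : ℝ => (s, v)) t hd hd1
    rw [← hpde t ht v]
    exact hd2.hasDerivAt

theorem sol_of_solW (f : ℝ → V → ℝ) (hf : SolW f) (t₀ : ℝ) (h0 : t₀ ≤ 0)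
    (hi : Integrable (fun v => ‖v‖ ^ 2 * f t₀ v)) : Sol f := by
  refine ⟨hf.smooth, fun t ht => ?_, hf.pde⟩
  have hc := hf.cls t ht.le
  obtain ⟨h1, h2⟩ := energy_at f hf t₀ t h0 ht.le hi
  refine ⟨hc.smooth, hc.nonneg, hc.le_one, ?_⟩
  refine (h1.add h2).congr (Eventually.of_forall fun v => ?_)
  change f t v + ‖v‖ ^ 2 * f t v = (1 + ‖v‖ ^ 2) * f t v
  ring

end Pool.Agent.Landau
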