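import Pool.Agent.LandauG.WGron

/-!
# LandauG, module WBaire: `Kw (f t)` is locally bounded in time

Put `K t = Kw (f t)` (finite for every `t ≤ 0`, no uniformity is assumed).
`Kw_closed`: `K` is lower semicontinuous on `(-∞, 0]`: for fixed `R`, `∫ phiW R f (u n) → ∫ phiW R f t`
(`timeW_cont`), each is at most `m` (`phiW_int`), then `R → ∞`.

`Kw_bdd`: let `S` be the set of all `t ≤ 0` such that `K` is unbounded on every neighbourhood of `t` in `(-∞, 0]`.
`S` is closed, and on a closed interval `[t1, t2] ⊂ (-∞, 0]` which does not meet `S`, `K` is bounded (compactness).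
Suppose that `S` is nonempty.  `S` is a Baire space and the union of the closed sets `{t ∈ S : K t ≤ m}`, `m : ℕ`
(`Kw_closed`), so there are `s0 ∈ S`, `δ > 0`, `m` with `K ≤ m` on `S ∩ (s0 - δ, s0 + δ)`; we may take `δ ≤ 1/2`.
Claim: `K ≤ max m (Ψ m)` on `(s0 - δ, s0 + δ) ∩ (-∞, 0]` (`Ψ` from `Kw_gron`), a contradiction to `s0 ∈ S`.  Let `t` be in
this set, not in `S`, say `t < s0` (the case `t > s0` is symmetric).  Let `b` be the minimum of `S ∩ [t, s0]`, so
`b ∈ S`, `t < b`, `K b ≤ m` and `[t, b)` does not meet `S`.  For every `c ∈ [t, b)`, `K` is bounded on `[t, c]`, so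
`K c ≤ Ψ (K t)` by the first part of `Kw_gron`.  So `K` is bounded on `[t, b]` (by `max (Ψ (K t)) m`), and the second
part of `Kw_gron` on `[t, b]` gives `K t ≤ Ψ m`.  (Compare `Landau/Baire.lean`, where the same scheme is formalised.)
So every point of `(-∞, 0]` has a neighbourhood on which `K` is bounded; compactness of `[a, 0]`.
-/

set_option autoImplicit false

namespace Pool.Agent.Landau

open MeasureTheory Set Filter Topology

theorem Kw_closed (f : ℝ → V → ℝ) (hf : SolW f) (t m : ℝ) (ht : t ≤ 0) (u : ℕ → ℝ)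
    (hu : Tendsto u atTop (𝓝 t)) (hu0 : ∀ n, u n ≤ 0) (hm : ∀ n, Kw (f (u n)) ≤ m) :
    Kw (f t) ≤ m := by
  have hw : Tendsto u atTop (𝓝[Iic (0 : ℝ)] t) :=
    tendsto_nhdsWithin_iff.2 ⟨hu, Eventually.of_forall hu0⟩
  have h1 : ∀ R : ℝ, 0 < R → ∫ v, phiW R v * f t v ≤ m := by
    intro R hR
    have hcont := timeW_cont f hf (phiW R) (phiW_smooth R).continuous (phiW_compact hR) t ht
    have hlim : Tendsto (fun k => ∫ v, phiW R v * f (u k) v) atTop (𝓝 (∫ v, phiW R v * f t v)) :=
      hcont.tendsto.comp hw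
    refine le_of_tendsto' hlim fun k => ?_
    exact ((phiW_int (f (u k)) (hf.cls (u k) (hu0 k))).1 R hR).2.trans (hm k)
  refine le_of_tendsto (phiW_int (f t) (hf.cls t ht)).2 ?_
  filter_upwards [eventually_gt_atTop (0 : ℝ)] with R hR
  exact h1 R hR

/-- Abstract form of the Baire category argument. -/
theorem baireW_abstract (E Ψ : ℝ → ℝ)
    (hcl : ∀ (t m : ℝ), t ≤ 0 → ∀ u : ℕ → ℝ, Tendsto u atTop (𝓝 t) → (∀ n, u n ≤ 0) →
      (∀ n, E (u n) ≤ m) → E t ≤ m)
    (hloc : ∀ s t m : ℝ, s ≤ t → t ≤ 0 → t - s ≤ 1 → (∃ B : ℝ, ∀ τ ∈ Icc s t, E τ ≤ B) →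
      (E s ≤ m → E t ≤ Ψ m) ∧ (E t ≤ m → E s ≤ Ψ m))
    (a : ℝ) : ∃ B : ℝ, ∀ t ∈ Icc a 0, E t ≤ B := by
  set U : Set ℝ := {t | ∃ O : Set ℝ, IsOpen O ∧ t ∈ O ∧ ∃ m : ℝ, ∀ s ∈ O, s ≤ 0 → E s ≤ m} with hU
  have hUo : IsOpen U := by
    rw [isOpen_iff_forall_mem_open]
    rintro t ⟨O, hO, htO, m, hm⟩
    exact ⟨O, fun s hs => ⟨O, hO, hs, m, hm⟩, hO, htO⟩
  -- boundedness on compact intervals inside U
  have hcomp : ∀ a b : ℝ, b ≤ 0 → (∀ s ∈ Icc a b, s ∈ U) → ∃ m : ℝ, ∀ s ∈ Icc a b, E s ≤ m := by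
    intro a b hb hab
    have hK : IsCompact (Icc a b) := isCompact_Icc
    have key := hK.induction_on (p := fun A => ∃ m : ℝ, ∀ s ∈ A, s ≤ 0 → E s ≤ m)
      ⟨0, fun s hs => absurd hs (notMem_empty s)⟩
      (fun A B hAB ⟨m, hm⟩ => ⟨m, fun s hs => hm s (hAB hs)⟩)
      (fun A B ⟨m, hm⟩ ⟨m', hm'⟩ => ⟨max m m', fun s hs h0 => by
        rcases hs with hs | hs
        · exact (hm s hs h0).trans (le_max_left _ _)
        · exact (hm' s hs h0).trans (le_max_right _ _)⟩)
      (fun s hs => by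
        obtain ⟨O, hO, hsO, m, hm⟩ := hab s hs
        exact ⟨O, mem_nhdsWithin_of_mem_nhds (hO.mem_nhds hsO), m, hm⟩)
    obtain ⟨m, hm⟩ := key
    exact ⟨m, fun s hs => hm s hs (hs.2.trans hb)⟩
  set K : Set ℝ := Iic 0 ∩ Uᶜ with hKdef
  have hK0 : K = ∅ := by
    by_contra hne
    have hne' : K.Nonempty := nonempty_iff_ne_empty.2 hne
    have hlc : IsLocallyClosed K := (isClosed_Iic.inter hUo.isClosed_compl).isLocallyClosed
    have : LocallyCompactSpace K := hlc.locallyCompactSpace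
    have : Nonempty K := hne'.to_subtype
    have hFc : ∀ m : ℕ, IsClosed {x : K | E x ≤ (m : ℝ)} := by
      intro m
      refine IsSeqClosed.isClosed ?_
      intro u x hu hux
      have h1 : Tendsto (fun n => ((u n : K) : ℝ)) atTop (𝓝 (x : ℝ)) :=
        (continuous_subtype_val.tendsto x).comp hux
      exact hcl x m x.2.1 _ h1 (fun n => (u n).2.1) hu
    have hFu : ⋃ m : ℕ, {x : K | E x ≤ (m : ℝ)} = univ := by
      rw [eq_univ_iff_forall]
      intro x
      obtain ⟨m, hm⟩ := exists_nat_ge (E x)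
      exact mem_iUnion.2 ⟨m, hm⟩
    obtain ⟨m, hm⟩ := nonempty_interior_of_iUnion_of_closed hFc hFu
    obtain ⟨x0, hx0⟩ := hm
    rw [mem_interior_iff_mem_nhds, Metric.mem_nhds_iff] at hx0
    obtain ⟨ε0, hε0, hball⟩ := hx0
    have hx00 : (x0 : ℝ) ≤ 0 := x0.2.1
    set ε : ℝ := min ε0 (1 / 2) with hε
    have hεpos : 0 < ε := lt_min hε0 (by norm_num)
    have hε1 : ε ≤ 1 / 2 := min_le_right _ _
    have hKb : ∀ s ∈ K, |s - x0| < ε → E s ≤ m := by
      intro s hs hsx
      have : (⟨s, hs⟩ : K) ∈ Metric.ball x0 ε0 := by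
        rw [Metric.mem_ball, Subtype.dist_eq, Real.dist_eq]
        exact hsx.trans_le (min_le_left _ _)
      exact hball this
    -- claim
    have hclaim : ∀ t : ℝ, t ≤ 0 → |t - x0| < ε → E t ≤ max (m : ℝ) (Ψ m) := by
      intro t ht0 ht
      by_cases htK : t ∈ K
      · exact (hKb t htK ht).trans (le_max_left _ _)
      refine le_trans ?_ (le_max_right _ _)
      rcases lt_trichotomy t x0 with hlt | heq | hgt
      · -- t < x0
        set S : Set ℝ := Icc t x0 ∩ Uᶜ with hS
        have hSc : IsCompact S := isCompact_Icc.inter_right hUo.isClosed_compl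
        have hSne : S.Nonempty := ⟨x0, ⟨hlt.le, le_refl _⟩, x0.2.2⟩
        have hbS : sInf S ∈ S := hSc.sInf_mem hSne
        set b := sInf S with hb
        have hb0 : b ≤ 0 := hbS.1.2.trans hx00
        have hbK : b ∈ K := ⟨hb0, hbS.2⟩
        have htb : t < b := lt_of_le_of_ne hbS.1.1 (fun h => htK (h ▸ hbK))
        have h1 := (abs_lt.1 ht).1
        have h2 := hbS.1.2
        have hEb : E b ≤ m := by
          refine hKb b hbK ?_
          rw [abs_lt]
          constructor
          · linarith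
          · linarith
        have hout : ∀ s, t ≤ s → s < b → s ∈ U := by
          intro s hts hsb
          by_contra hsU
          have : s ∈ S := ⟨⟨hts, hsb.le.trans hbS.1.2⟩, hsU⟩
          exact absurd (csInf_le hSc.bddBelow this) (not_le.2 hsb)
        have hconst : ∀ s, t ≤ s → s < b → E s ≤ Ψ (E t) := by
          intro s hts hsb
          have hbd := hcomp t s (hsb.le.trans hb0) (fun r hr => hout r hr.1 (hr.2.trans_lt hsb))
          exact (hloc t s (E t) hts (hsb.le.trans hb0) (by linarith) hbd).1 le_rfl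
        refine (hloc t b m htb.le hb0 (by linarith) ⟨max (Ψ (E t)) m, fun s hs => ?_⟩).2 hEb
        rcases hs.2.lt_or_eq with h | h
        · exact (hconst s hs.1 h).trans (le_max_left _ _)
        · rw [h]; exact hEb.trans (le_max_right _ _)
      · exact absurd (heq ▸ x0.2) htK
      · -- x0 < t
        set S : Set ℝ := Icc (x0 : ℝ) t ∩ Uᶜ with hS
        have hSc : IsCompact S := isCompact_Icc.inter_right hUo.isClosed_compl
        have hSne : S.Nonempty := ⟨x0, ⟨le_refl _, hgt.le⟩, x0.2.2⟩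
        have hbS : sSup S ∈ S := hSc.sSup_mem hSne
        set b := sSup S with hb
        have hb0 : b ≤ 0 := hbS.1.2.trans ht0
        have hbK : b ∈ K := ⟨hb0, hbS.2⟩
        have hbt : b < t := lt_of_le_of_ne hbS.1.2 (fun h => htK (h ▸ hbK))
        have h1 := (abs_lt.1 ht).2
        have h2 := hbS.1.1
        have hEb : E b ≤ m := by
          refine hKb b hbK ?_
          rw [abs_lt]
          constructor
          · linarith
          · linarith
        have hout : ∀ s, b < s → s ≤ t → s ∈ U := by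
          intro s hbs hst
          by_contra hsU
          have : s ∈ S := ⟨⟨hbS.1.1.trans hbs.le, hst⟩, hsU⟩
          exact absurd (le_csSup hSc.bddAbove this) (not_le.2 hbs)
        have hconst : ∀ s, b < s → s ≤ t → E s ≤ Ψ (E t) := by
          intro s hbs hst
          have hbd := hcomp s t ht0 (fun r hr => hout r (hbs.trans_le hr.1) hr.2)
          exact (hloc s t (E t) hst ht0 (by linarith) hbd).2 le_rfl
        refine (hloc b t m hbt.le ht0 (by linarith) ⟨max (Ψ (E t)) m, fun s hs => ?_⟩).1 hEb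
        rcases hs.1.lt_or_eq with h | h
        · exact (hconst s h hs.2).trans (le_max_left _ _)
        · rw [← h]; exact hEb.trans (le_max_right _ _)
    refine x0.2.2 ⟨Metric.ball (x0 : ℝ) ε, Metric.isOpen_ball, Metric.mem_ball_self hεpos,
      max (m : ℝ) (Ψ m), fun s hs hs0 => hclaim s hs0 ?_⟩
    rwa [Metric.mem_ball, Real.dist_eq] at hs
  refine hcomp a 0 le_rfl fun s hs => ?_
  by_contra hsU
  have : s ∈ K := ⟨hs.2, hsU⟩
  rw [hK0] at this
  exact this

theorem Kw_bdd (f : ℝ → V → ℝ) (hf : SolW f) (a : ℝ) :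
    ∃ B : ℝ, ∀ τ ∈ Icc a 0, Kw (f τ) ≤ B := by
  obtain ⟨Ψ, hΨ⟩ := Kw_gron
  exact baireW_abstract (fun t => Kw (f t)) Ψ
    (fun t m ht u hu hu0 hm => Kw_closed f hf t m ht u hu hu0 hm)
    (fun s t m hst ht h1 hB => hΨ f hf s t m hst ht h1 hB) a

end Pool.Agent.Landau
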