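import Pool.Agent.LandauG.WRate
import Pool.Agent.LandauG.WTime

/-!
# LandauG, module WGron: Osgood estimate for `Kw (f t)`

Let `K t = Kw (f t)`, `H x = C (1 + x) (1 + log (1 + x))` with `C` from `rateW` (nondecreasing on `[0, ∞)`).

`Kw_lip`: if `K ≤ B` on `[s, t]` then `|K t - K s| ≤ H B (t - s)`: `timeW_lip` for `phiW R` (`rateW`), `R → ∞`
(`phiW_int`).

`Kw_gron`: let `K` be bounded on `[s, t]`, `t - s ≤ 1`.  By `Kw_lip` on subintervals `K` is Lipschitz, hence continuous,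
on `[s, t]`.  Put `u = 1 + log (1 + m)`, `y τ = exp (u exp (2 (C + 1) (τ - s))) - 1`: `y s ≥ m`,
`y' = 2 (C + 1) (1 + y) log (1 + y)` with `log (1 + y) ≥ u ≥ 1`, so `y' > H y`.
Apply `image_le_of_liminf_slope_right_lt_deriv_boundary'`.
For the other direction apply the same to `τ ↦ K (-τ)`.
-/

set_option autoImplicit false

namespace Pool.Agent.Landau

open MeasureTheory Set Filter Topology

/-- the rate function -/
noncomputable def Hos (C x : ℝ) : ℝ := C * ((1 + x) * (1 + Real.log (1 + x)))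

theorem Hos_mono {C x y : ℝ} (hC : 0 ≤ C) (hx : 0 ≤ x) (hxy : x ≤ y) : Hos C x ≤ Hos C y := by
  unfold Hos
  have h1 : Real.log (1 + x) ≤ Real.log (1 + y) := Real.log_le_log (by linarith) (by linarith)
  have h2 : 0 ≤ Real.log (1 + x) := Real.log_nonneg (by linarith)
  exact mul_le_mul_of_nonneg_left
    (mul_le_mul (by linarith) (by linarith) (by linarith) (by linarith)) hC

theorem Hos_nonneg {C x : ℝ} (hC : 0 ≤ C) (hx : 0 ≤ x) : 0 ≤ Hos C x := by
  have h2 : 0 ≤ Real.log (1 + x) := Real.log_nonneg (by linarith)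
  unfold Hos
  positivity

theorem Hos_cont {C x : ℝ} (hx : 0 ≤ x) : ContinuousAt (Hos C) x := by
  unfold Hos
  have h1 : ContinuousAt (fun x : ℝ => 1 + x) x := by fun_prop
  have h2 : ContinuousAt (fun x : ℝ => Real.log (1 + x)) x :=
    ContinuousAt.log h1 (by positivity)
  exact continuousAt_const.mul (h1.mul (continuousAt_const.add h2))

/-- Osgood's comparison argument -/
theorem osgood (C : ℝ) (hC : 0 < C) (K : ℝ → ℝ) (s t : ℝ) (hst : s ≤ t) (h1 : t - s ≤ 1)
    (hK0 : ∀ τ ∈ Icc s t, 0 ≤ K τ) (B0 : ℝ) (hB0 : ∀ τ ∈ Icc s t, K τ ≤ B0)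
    (hlip : ∀ x ∈ Icc s t, ∀ y ∈ Icc s t, x ≤ y → ∀ B : ℝ, (∀ τ ∈ Icc x y, K τ ≤ B) →
      |K y - K x| ≤ Hos C B * (y - x)) (m : ℝ) (hm : K s ≤ m) :
    K t ≤ Real.exp ((1 + Real.log (1 + m)) * Real.exp (2 * (C + 1))) := by
  have hs : s ∈ Icc s t := left_mem_Icc.2 hst
  have htm : t ∈ Icc s t := right_mem_Icc.2 hst
  have hm0 : 0 ≤ m := (hK0 s hs).trans hm
  have hB00 : 0 ≤ B0 := (hK0 s hs).trans (hB0 s hs)
  -- continuity
  have hlip0 : ∀ x ∈ Icc s t, ∀ y ∈ Icc s t, |K y - K x| ≤ Hos C B0 * |y - x| := by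
    intro x hx y hy
    rcases le_total x y with hxy | hxy
    · have := hlip x hx y hy hxy B0 (fun τ hτ => hB0 τ ⟨hx.1.trans hτ.1, hτ.2.trans hy.2⟩)
      rwa [abs_of_nonneg (sub_nonneg.2 hxy)]
    · have := hlip y hy x hx hxy B0 (fun τ hτ => hB0 τ ⟨hy.1.trans hτ.1, hτ.2.trans hx.2⟩)
      rw [abs_sub_comm, abs_sub_comm y x, abs_of_nonneg (sub_nonneg.2 hxy)]
      exact this
  have hcont : ContinuousOn K (Icc s t) := by
    have hL : LipschitzOnWith (Real.toNNReal (Hos C B0)) K (Icc s t) := by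
      refine LipschitzOnWith.of_dist_le_mul fun x hx y hy => ?_
      rw [Real.dist_eq, Real.dist_eq, Real.coe_toNNReal _ (Hos_nonneg hC.le hB00)]
      exact hlip0 y hy x hx
    exact hL.continuousOn
  set u : ℝ := 1 + Real.log (1 + m) with hu
  have hu1 : 1 ≤ u := by
    have := Real.log_nonneg (show (1 : ℝ) ≤ 1 + m by linarith)
    linarith
  set c : ℝ := 2 * (C + 1) with hc
  have hc0 : 0 < c := by rw [hc]; linarith
  -- the supersolution
  have hyder : ∀ τ : ℝ, HasDerivAt (fun τ : ℝ => Real.exp (u * Real.exp (c * (τ - s))) - 1)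
      (Real.exp (u * Real.exp (c * (τ - s))) * (u * (Real.exp (c * (τ - s)) * c))) τ := by
    intro τ
    have e1 : HasDerivAt (fun τ : ℝ => c * (τ - s)) c τ := by
      simpa using ((hasDerivAt_id τ).sub_const s).const_mul c
    have e2 := e1.exp.const_mul u
    exact (e2.exp).sub_const 1
  have hycont : ContinuousOn (fun τ : ℝ => Real.exp (u * Real.exp (c * (τ - s))) - 1)
      (Icc s t) := fun τ _ => (hyder τ).continuousAt.continuousWithinAt
  have hstart : K s ≤ Real.exp (u * Real.exp (c * (s - s))) - 1 := by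
    rw [sub_self, mul_zero, Real.exp_zero, mul_one]
    have e1 : 1 + m ≤ Real.exp u := by
      rw [hu, Real.exp_add, Real.exp_log (by linarith)]
      have := Real.add_one_le_exp (1 : ℝ)
      nlinarith
    linarith
  have key := image_le_of_liminf_slope_right_lt_deriv_boundary' (f := K)
    (f' := fun x => Hos C (K x)) (a := s) (b := t) hcont ?_ (B := fun τ : ℝ =>
      Real.exp (u * Real.exp (c * (τ - s))) - 1) hstart hycont
    (fun x _ => (hyder x).hasDerivWithinAt) ?_ htm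
  · refine key.trans ?_
    have e1 : Real.exp (c * (t - s)) ≤ Real.exp c := by
      refine Real.exp_le_exp.2 ?_
      calc c * (t - s) ≤ c * 1 := mul_le_mul_of_nonneg_left h1 hc0.le
        _ = c := mul_one c
    have e2 : Real.exp (u * Real.exp (c * (t - s))) ≤ Real.exp (u * Real.exp c) :=
      Real.exp_le_exp.2 (mul_le_mul_of_nonneg_left e1 (by linarith))
    linarith
  · intro x hx r hr
    have hxI : x ∈ Icc s t := ⟨hx.1, hx.2.le⟩
    have hKx := hK0 x hxI
    -- choose a slightly larger value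
    have hH : ∀ᶠ y in 𝓝 (K x), Hos C y < r :=
      (Hos_cont (C := C) hKx).eventually (gt_mem_nhds hr)
    obtain ⟨ε, hε, hHε⟩ := Metric.eventually_nhds_iff.1 hH
    have hr2 : Hos C (K x + ε / 2) < r := hHε (by
      rw [Real.dist_eq, add_sub_cancel_left, abs_of_pos (by positivity)]; linarith)
    obtain ⟨δ, hδ, hKδ⟩ := Metric.continuousWithinAt_iff.1 (hcont x hxI) (ε / 2) (by positivity)
    have hev : ∀ᶠ z in 𝓝[>] x, slope K x z < r := by
      have h2 : Ioo x (min (x + δ) t) ∈ 𝓝[>] x :=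
        Ioo_mem_nhdsGT (lt_min (by linarith) hx.2)
      filter_upwards [h2] with z hz
      have hz1 : x < z := hz.1
      have hz2 : z < x + δ := hz.2.trans_le (min_le_left _ _)
      have hz3 : z < t := hz.2.trans_le (min_le_right _ _)
      have hzI : z ∈ Icc s t := ⟨hx.1.trans hz1.le, hz3.le⟩
      have hb := hlip x hxI z hzI hz1.le (K x + ε / 2) (fun τ hτ => by
        have hτI : τ ∈ Icc s t := ⟨hx.1.trans hτ.1, hτ.2.trans hz3.le⟩
        have hd : dist τ x < δ := by
          rw [Real.dist_eq, abs_of_nonneg (sub_nonneg.2 hτ.1)]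
          have := hτ.2
          linarith
        have := hKδ hτI hd
        rw [Real.dist_eq] at this
        have := (abs_lt.1 this).2
        linarith)
      rw [slope_def_field, div_lt_iff₀ (sub_pos.2 hz1)]
      have h5 := le_abs_self (K z - K x)
      have h6 : Hos C (K x + ε / 2) * (z - x) < r * (z - x) :=
        mul_lt_mul_of_pos_right hr2 (sub_pos.2 hz1)
      linarith
    exact hev.frequently
  · intro x hx hxe
    rw [hxe]
    set E : ℝ := Real.exp (c * (x - s)) with hE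
    have hE1 : 1 ≤ E := by
      rw [hE]
      exact Real.one_le_exp (mul_nonneg hc0.le (sub_nonneg.2 hx.1))
    set P : ℝ := Real.exp (u * E) with hP
    have hP0 : 0 < P := Real.exp_pos _
    have hlog : Real.log (1 + (P - 1)) = u * E := by
      rw [show 1 + (P - 1) = P by ring, hP, Real.log_exp]
    unfold Hos
    rw [hlog, show 1 + (P - 1) = P by ring]
    have huE : 1 ≤ u * E := by nlinarith
    have h7 : C * (P * (1 + u * E)) < P * (u * (E * c)) := by
      rw [hc]
      have : C * (1 + u * E) < u * E * (2 * (C + 1)) := by nlinarith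
      nlinarith
    exact h7

theorem Kw_lip : ∃ C : ℝ, 0 < C ∧ ∀ f : ℝ → V → ℝ, SolW f → ∀ s t B : ℝ, s ≤ t → t ≤ 0 →
    (∀ τ ∈ Icc s t, Kw (f τ) ≤ B) →
    |Kw (f t) - Kw (f s)| ≤ C * ((1 + B) * (1 + Real.log (1 + B))) * (t - s) := by
  obtain ⟨C, hC, hrate⟩ := rateW
  refine ⟨C, hC, fun f hf s t B hst ht hB => ?_⟩
  have hct := hf.cls t ht
  have hcs := hf.cls s (hst.trans ht)
  have hlim := (((phiW_int (f t) hct).2).sub ((phiW_int (f s) hcs).2)).abs
  refine le_of_tendsto hlim ?_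
  filter_upwards [eventually_ge_atTop 1] with R hR
  refine timeW_lip f hf (phiW R) (phiW_smooth R).continuous (phiW_compact (by linarith)) s t hst ht
    _ (fun τ hτ => ?_)
  have hτ0 : τ ≤ 0 := hτ.2.le.trans ht
  have hcl := hf.cls τ hτ0
  refine (hrate (f τ) hcl R hR).trans ?_
  exact Hos_mono hC.le hcl.Kw_nonneg (hB τ ⟨hτ.1.le, hτ.2.le⟩)

theorem Kw_gron : ∃ Ψ : ℝ → ℝ, ∀ f : ℝ → V → ℝ, SolW f → ∀ s t m : ℝ, s ≤ t → t ≤ 0 → t - s ≤ 1 →
    (∃ B : ℝ, ∀ τ ∈ Icc s t, Kw (f τ) ≤ B) →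
    (Kw (f s) ≤ m → Kw (f t) ≤ Ψ m) ∧ (Kw (f t) ≤ m → Kw (f s) ≤ Ψ m) := by
  obtain ⟨C, hC, hlip⟩ := Kw_lip
  refine ⟨fun m => Real.exp ((1 + Real.log (1 + m)) * Real.exp (2 * (C + 1))), ?_⟩
  rintro f hf s t m hst ht h1 ⟨B0, hB0⟩
  have hpos : ∀ τ ≤ 0, 0 ≤ Kw (f τ) := fun τ hτ => (hf.cls τ hτ).Kw_nonneg
  constructor
  · intro hm
    exact osgood C hC (fun τ => Kw (f τ)) s t hst h1 (fun τ hτ => hpos τ (hτ.2.trans ht)) B0 hB0
      (fun x hx y hy hxy B hB => hlip f hf x y B hxy (hy.2.trans ht) hB) m hm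
  · intro hm
    have h := osgood C hC (fun τ => Kw (f (-τ))) (-t) (-s) (by linarith) (by linarith)
      (fun τ hτ => hpos (-τ) (by have := hτ.1; linarith)) B0
      (fun τ hτ => hB0 (-τ) ⟨by have := hτ.2; linarith, by have := hτ.1; linarith⟩)
      (fun x hx y hy hxy B hB => ?_) m (by simpa using hm)
    · simpa using h
    · have hx1 := hx.1
      have hl := hlip f hf (-y) (-x) B (by linarith) (by linarith) (fun τ hτ => by
        have h3 := hB (-τ) ⟨by have := hτ.2; linarith, by have := hτ.1; linarith⟩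
        simpa using h3)
      rw [abs_sub_comm]
      have e : -x - -y = y - x := by ring
      rw [e] at hl
      exact hl

end Pool.Agent.Landau
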