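import Pool.Agent.LandauG.WDefs
import Pool.Agent.Landau.KIbp
import Pool.Agent.Landau.Bars

/-!
# LandauG, module WBars: the convolutions `abar u`, `bbar u` for `u / ang` integrable

This is `Landau/Bars.lean` (please copy from there) with the hypothesis `Integrable u` replaced by
`AEStronglyMeasurable u` and `Integrable (fun v => u v / ang v)`.

`sup_inv`: `F` is continuous, zero off the ball of radius `ρ ≥ 1`, `|F| ≤ A` with `A > 0`.  By `integrable_inv`
both functions are integrable for every `w`, by `int_inv`, `int_inv_sq` for `|F| / A`, `r = 1` the integrals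
are at most `A (13 + ∫ |F| / A)` for every `w`.  For `‖w‖ ≥ 2 ρ`: `‖v - w‖ ≥ ‖w‖ / 2 ≥ 1` on the support, so
they are at most `(2 / ‖w‖) ∫ |F| ≤ (3 / ang w) ∫ |F|`; for `‖w‖ ≤ 2 ρ` we have `ang w ≤ 4 ρ`.

`bars_int_aW`: `|aK i j (v - w) u w F v| ≤ (|F v| / ‖v - w‖) |u w|`, whose integral over `v` is at most
`C |u w| / ang w`: use `integrable_prod_iff'` (measurability: `aK_measurable` etc.).  The same for `b`.

`kernel_intW`: `|aK i j (v - w) u w| ≤ |u w| / ‖v - w‖`: near `v` bounded times locally integrable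
(`int_inv` for the indicator of the ball of radius `2 ang v`), far away at most `3 |u w| / ang w`
(see the header of `WPot`).  The same for `b` (`1 / ‖v - w‖² ≤ 1 / ‖v - w‖` far away).
-/

set_option autoImplicit false

namespace Pool.Agent.Landau

open MeasureTheory Set Filter Topology

/-- far away the kernel is at most `3 / ang w` -/
theorem wb_far_inv {v w : V} {ρ : ℝ} (hρ : 1 ≤ ρ) (hv : ‖v‖ ≤ ρ) (hw : 2 * ρ ≤ ‖w‖) (k : ℕ)
    (hk1 : 1 ≤ k) : 1 / ‖v - w‖ ^ k ≤ 3 / ang w := by
  have h1 : ‖w‖ / 2 ≤ ‖v - w‖ := by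
    have := norm_sub_norm_le w v
    rw [norm_sub_rev w v] at this
    linarith
  have h2 : 1 ≤ ‖v - w‖ := by linarith
  have h3 : ‖v - w‖ ≤ ‖v - w‖ ^ k := le_self_pow₀ h2 (by omega)
  have h4 : ang w ≤ 3 / 2 * ‖w‖ := by
    have := ang_le w
    linarith
  have h5 : ang w ≤ 3 * ‖v - w‖ ^ k := by linarith
  have h6 : 0 < ‖v - w‖ ^ k := by positivity
  rw [div_le_div_iff₀ h6 (ang_pos w)]
  linarith

theorem wb_sup_inv_k (k : ℕ) (hk1 : 1 ≤ k) (hk : k ≤ 2) (F : V → ℝ) (hF : Continuous F)
    (hc : HasCompactSupport F) :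
    ∃ C : ℝ, 0 ≤ C ∧ ∀ w : V, Integrable (fun v => |F v| / ‖v - w‖ ^ k) ∧
      ∫ v, |F v| / ‖v - w‖ ^ k ≤ C / ang w := by
  obtain ⟨C0, hC0⟩ := hF.bounded_above_of_compact_support hc
  have hFi : Integrable F := hF.integrable_of_hasCompactSupport hc
  have hFa : Integrable (fun v => |F v|) := hFi.abs
  obtain ⟨K, hK0, hK⟩ := gen_bound k hk (fun v => |F v|) hFa C0
    (fun v => by rw [abs_abs]; simpa using hC0 v)
  obtain ⟨ρ0, hρ0⟩ := hc.isCompact.isBounded.subset_closedBall (0 : V)
  set ρ : ℝ := max ρ0 1 with hρ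
  have hρ1 : 1 ≤ ρ := le_max_right _ _
  have hsupp : ∀ v, F v ≠ 0 → ‖v‖ ≤ ρ := by
    intro v hv
    have : v ∈ Metric.closedBall (0 : V) ρ0 := hρ0 (subset_closure hv)
    rw [mem_closedBall_zero_iff] at this
    exact this.trans (le_max_left _ _)
  have hI : 0 ≤ ∫ v, |F v| := integral_nonneg fun v => abs_nonneg _
  refine ⟨3 * (∫ v, |F v|) + 4 * ρ * K, by positivity, fun w => ⟨(hK w).1, ?_⟩⟩
  have ha := ang_pos w
  by_cases hw : 2 * ρ ≤ ‖w‖
  · have hpt : ∀ v, |F v| / ‖v - w‖ ^ k ≤ 3 / ang w * |F v| := by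
      intro v
      by_cases hv : F v = 0
      · rw [hv]; simp
      · rw [div_eq_mul_one_div, mul_comm]
        exact mul_le_mul_of_nonneg_right (wb_far_inv hρ1 (hsupp v hv) hw k hk1) (abs_nonneg _)
    calc ∫ v, |F v| / ‖v - w‖ ^ k ≤ ∫ v, 3 / ang w * |F v| :=
          integral_mono (hK w).1 (hFa.const_mul _) hpt
      _ = 3 / ang w * ∫ v, |F v| := integral_const_mul _ _
      _ = (3 * ∫ v, |F v|) / ang w := by ring
      _ ≤ (3 * (∫ v, |F v|) + 4 * ρ * K) / ang w := by
          refine div_le_div_of_nonneg_right ?_ ha.le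
          have : 0 ≤ 4 * ρ * K := by positivity
          linarith
  · push Not at hw
    have h1 : ang w ≤ 4 * ρ := by
      have := ang_le w
      linarith
    have h2 : ∫ v, |F v| / ‖v - w‖ ^ k ≤ K := by
      have := (hK w).2
      simpa only [abs_abs] using this
    refine h2.trans ?_
    rw [le_div_iff₀ ha]
    have h3 : K * ang w ≤ K * (4 * ρ) := mul_le_mul_of_nonneg_left h1 hK0
    linarith

theorem sup_inv (F : V → ℝ) (hF : Continuous F) (hc : HasCompactSupport F) :
    ∃ C : ℝ, 0 ≤ C ∧ ∀ w : V, Integrable (fun v => |F v| / ‖v - w‖) ∧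
      Integrable (fun v => |F v| / ‖v - w‖ ^ 2) ∧
      ∫ v, |F v| / ‖v - w‖ ≤ C / ang w ∧ ∫ v, |F v| / ‖v - w‖ ^ 2 ≤ C / ang w := by
  obtain ⟨C1, h1, h1'⟩ := wb_sup_inv_k 1 le_rfl (by norm_num) F hF hc
  obtain ⟨C2, h2, h2'⟩ := wb_sup_inv_k 2 (by norm_num) le_rfl F hF hc
  simp only [pow_one] at h1'
  refine ⟨C1 + C2, by positivity, fun w => ⟨(h1' w).1, (h2' w).1, (h1' w).2.trans ?_,
    (h2' w).2.trans ?_⟩⟩
  · exact div_le_div_of_nonneg_right (by linarith) (ang_pos w).le
  · exact div_le_div_of_nonneg_right (by linarith) (ang_pos w).le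

theorem wb_kint_k (k : ℕ) (hk1 : 1 ≤ k) (hk : k ≤ 2) (u : V → ℝ)
    (hm : AEStronglyMeasurable u volume)
    (hu : Integrable (fun v => u v / ang v)) (C : ℝ) (hC : ∀ v, |u v| ≤ C) (v : V) :
    Integrable (fun w => |u w| / ‖v - w‖ ^ k) := by
  set S : Set V := Metric.closedBall (0 : V) (2 * ang v) with hS
  have hmS : MeasurableSet S := Metric.isClosed_closedBall.measurableSet
  have hC0 : 0 ≤ C := (abs_nonneg _).trans (hC 0)
  have hSi : Integrable (S.indicator u) := by
    rw [integrable_indicator_iff hmS]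
    refine Measure.integrableOn_of_bounded (M := C) ?_ hm ?_
    · exact measure_closedBall_lt_top.ne
    · exact Eventually.of_forall fun w => by rw [Real.norm_eq_abs]; exact hC w
  have hSC : ∀ w, |S.indicator u w| ≤ C := by
    intro w
    by_cases hw : w ∈ S
    · rw [indicator_of_mem hw]; exact hC w
    · rw [indicator_of_notMem hw, abs_zero]; exact hC0
  obtain ⟨K, hK0, hK⟩ := gen_bound k hk (S.indicator u) hSi C hSC
  have hint : Integrable (fun w => ‖S.indicator u w / ‖w - v‖ ^ k‖ + 3 * ‖u w / ang w‖) :=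
    (hK v).1.norm.add (hu.norm.const_mul 3)
  refine hint.mono' ?_ (Eventually.of_forall fun w => ?_)
  · have hmm : Measurable fun w : V => (‖v - w‖ ^ k)⁻¹ :=
      (kker_meas k).comp (measurable_const.sub measurable_id)
    exact (hm.norm).mul hmm.aestronglyMeasurable
  · rw [norm_div, norm_pow, norm_norm, Real.norm_eq_abs, abs_abs]
    by_cases hw : w ∈ S
    · have e1 : ‖S.indicator u w / ‖w - v‖ ^ k‖ = |u w| / ‖v - w‖ ^ k := by
        rw [indicator_of_mem hw, norm_div, norm_pow, norm_norm, Real.norm_eq_abs,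
          norm_sub_rev]
      rw [e1]
      have : 0 ≤ 3 * ‖u w / ang w‖ := by positivity
      linarith
    · have hw2 : 2 * ang v ≤ ‖w‖ := by
        rw [hS, mem_closedBall_zero_iff] at hw
        linarith
      have h1 := wb_far_inv (one_le_ang v) (norm_le_ang v) hw2 k hk1
      have h2 : |u w| / ‖v - w‖ ^ k ≤ 3 * ‖u w / ang w‖ := by
        rw [norm_div, Real.norm_eq_abs, Real.norm_eq_abs, abs_of_pos (ang_pos w)]
        calc |u w| / ‖v - w‖ ^ k = |u w| * (1 / ‖v - w‖ ^ k) := by ring
          _ ≤ |u w| * (3 / ang w) := mul_le_mul_of_nonneg_left h1 (abs_nonneg _)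
          _ = 3 * (|u w| / ang w) := by ring
      have : 0 ≤ ‖S.indicator u w / ‖w - v‖ ^ k‖ := norm_nonneg _
      linarith

theorem kernel_intW (u : V → ℝ) (hm : AEStronglyMeasurable u volume)
    (hu : Integrable (fun v => u v / ang v)) (C : ℝ) (hC : ∀ v, |u v| ≤ C) (i j : Fin 3) (v : V) :
    Integrable (fun w => aK i j (v - w) * u w) ∧ Integrable (fun w => bK i (v - w) * u w) := by
  constructor
  · have h1 := wb_kint_k 1 le_rfl (by norm_num) u hm hu C hC v
    refine h1.mono' (((aK_measurable i j).comp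
      (measurable_const.sub measurable_id)).aestronglyMeasurable.mul hm)
      (Eventually.of_forall fun w => ?_)
    rw [norm_mul, Real.norm_eq_abs, Real.norm_eq_abs, pow_one, div_eq_mul_one_div, mul_comm]
    exact mul_le_mul_of_nonneg_left (aK_abs i j (v - w)) (abs_nonneg _)
  · have h1 := wb_kint_k 2 (by norm_num) le_rfl u hm hu C hC v
    refine h1.mono' (((bK_measurable i).comp
      (measurable_const.sub measurable_id)).aestronglyMeasurable.mul hm)
      (Eventually.of_forall fun w => ?_)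
    rw [norm_mul, Real.norm_eq_abs, Real.norm_eq_abs, div_eq_mul_one_div, mul_comm]
    exact mul_le_mul_of_nonneg_left (bK_abs i (v - w)) (abs_nonneg _)

theorem wb_prodW (k : ℕ) (hk1 : 1 ≤ k) (hk : k ≤ 2) (u : V → ℝ)
    (hm : AEStronglyMeasurable u volume)
    (hu : Integrable (fun v => u v / ang v)) (F : V → ℝ) (hF : Continuous F)
    (hc : HasCompactSupport F) :
    Integrable (fun p : V × V => F p.1 * u p.2 / ‖p.1 - p.2‖ ^ k)
      ((volume : Measure V).prod (volume : Measure V)) := by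
  obtain ⟨K, hK0, hK⟩ := wb_sup_inv_k k hk1 hk F hF hc
  have hFi : Integrable F := hF.integrable_of_hasCompactSupport hc
  have hmeas : AEStronglyMeasurable (fun p : V × V => F p.1 * u p.2 / ‖p.1 - p.2‖ ^ k)
      ((volume : Measure V).prod (volume : Measure V)) := by
    have hmm : Measurable fun p : V × V => (‖p.1 - p.2‖ ^ k)⁻¹ :=
      (kker_meas k).comp (measurable_fst.sub measurable_snd)
    exact (hFi.aestronglyMeasurable.comp_fst.mul hm.comp_snd).mul hmm.aestronglyMeasurable
  have hnorm : ∀ w v : V, ‖F v * u w / ‖v - w‖ ^ k‖ = |u w| * (|F v| / ‖v - w‖ ^ k) := by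
    intro w v
    rw [norm_div, norm_mul, norm_pow, norm_norm, Real.norm_eq_abs, Real.norm_eq_abs]
    ring
  rw [integrable_prod_iff' hmeas]
  constructor
  · refine Eventually.of_forall fun w => ?_
    refine ((hK w).1.const_mul |u w|).mono' ?_ (Eventually.of_forall fun v => ?_)
    · have hmm : Measurable fun v : V => (‖v - w‖ ^ k)⁻¹ :=
        (kker_meas k).comp (measurable_id.sub measurable_const)
      exact (hFi.aestronglyMeasurable.mul_const (u w)).mul hmm.aestronglyMeasurable
    · exact le_of_eq (hnorm w v)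
  · refine ((hu.norm).mul_const K).mono' ?_ (Eventually.of_forall fun w => ?_)
    · exact hmeas.norm.prod_swap.integral_prod_right'
    · simp only [hnorm w]
      rw [integral_const_mul, Real.norm_eq_abs, abs_mul, abs_abs, norm_div, Real.norm_eq_abs,
        Real.norm_eq_abs, abs_of_pos (ang_pos w)]
      rw [abs_of_nonneg (integral_nonneg fun v => div_nonneg (abs_nonneg _)
        (pow_nonneg (norm_nonneg _) k))]
      calc |u w| * ∫ v, |F v| / ‖v - w‖ ^ k ≤ |u w| * (K / ang w) :=
            mul_le_mul_of_nonneg_left (hK w).2 (abs_nonneg _)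
        _ = |u w| / ang w * K := by ring

theorem bars_int_aW (u : V → ℝ) (hm : AEStronglyMeasurable u volume)
    (hu : Integrable (fun v => u v / ang v)) (F : V → ℝ) (hF : Continuous F)
    (hc : HasCompactSupport F) (i j : Fin 3) :
    Integrable (fun p : V × V => aK i j (p.1 - p.2) * u p.2 * F p.1)
      ((volume : Measure V).prod (volume : Measure V)) := by
  have hFi : Integrable F := hF.integrable_of_hasCompactSupport hc
  have h1 := wb_prodW 1 le_rfl (by norm_num) u hm hu F hF hc
  refine h1.mono ((((aK_measurable i j).comp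
    (measurable_fst.sub measurable_snd)).aestronglyMeasurable.mul
      hm.comp_snd).mul hFi.aestronglyMeasurable.comp_fst)
      (Eventually.of_forall fun p => ?_)
  rw [norm_mul, norm_mul, norm_div, norm_mul, norm_pow, norm_norm, Real.norm_eq_abs (aK _ _ _),
    pow_one]
  calc |aK i j (p.1 - p.2)| * ‖u p.2‖ * ‖F p.1‖ ≤ 1 / ‖p.1 - p.2‖ * ‖u p.2‖ * ‖F p.1‖ := by
        gcongr
        exact aK_abs i j (p.1 - p.2)
    _ = ‖F p.1‖ * ‖u p.2‖ / ‖p.1 - p.2‖ := by ring

theorem bars_int_bW (u : V → ℝ) (hm : AEStronglyMeasurable u volume)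
    (hu : Integrable (fun v => u v / ang v)) (F : V → ℝ) (hF : Continuous F)
    (hc : HasCompactSupport F) (i : Fin 3) :
    Integrable (fun p : V × V => bK i (p.1 - p.2) * u p.2 * F p.1)
      ((volume : Measure V).prod (volume : Measure V)) := by
  have hFi : Integrable F := hF.integrable_of_hasCompactSupport hc
  have h1 := wb_prodW 2 (by norm_num) le_rfl u hm hu F hF hc
  refine h1.mono ((((bK_measurable i).comp
    (measurable_fst.sub measurable_snd)).aestronglyMeasurable.mul
      hm.comp_snd).mul hFi.aestronglyMeasurable.comp_fst)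
      (Eventually.of_forall fun p => ?_)
  rw [norm_mul, norm_mul, norm_div, norm_mul, norm_pow, norm_norm, Real.norm_eq_abs (bK _ _)]
  calc |bK i (p.1 - p.2)| * ‖u p.2‖ * ‖F p.1‖ ≤ 1 / ‖p.1 - p.2‖ ^ 2 * ‖u p.2‖ * ‖F p.1‖ := by
        gcongr
        exact bK_abs i (p.1 - p.2)
    _ = ‖F p.1‖ * ‖u p.2‖ / ‖p.1 - p.2‖ ^ 2 := by ring

theorem bar_ibp_aW (u : V → ℝ) (hm : AEStronglyMeasurable u volume)
    (hu : Integrable (fun v => u v / ang v)) (G : V → ℝ) (hG : ContDiff ℝ 1 G)
    (hc : HasCompactSupport G) (i : Fin 3) :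
    ∑ j : Fin 3, ∫ v, abar u i j v * pd j G v = - ∫ v, bbar u i v * G v := by
  have hj : ∀ j : Fin 3, _ := fun j => bars_fubini (aK i j) (pd j G) u
    (bars_int_aW u hm hu (pd j G) (continuous_pd hG j) (compact_pd hc j) i j)
  obtain ⟨hb1, hb2⟩ := bars_fubini (bK i) G u (bars_int_bW u hm hu G hG.continuous hc i)
  unfold abar bbar
  rw [Finset.sum_congr rfl fun j _ => (hj j).1, hb1,
    ← integral_finsetSum _ fun j _ => (hj j).2, ← integral_neg]
  refine integral_congr_ae (Eventually.of_forall fun w => ?_)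
  simp only []
  rw [← Finset.mul_sum, ibp_aK G hG hc i w]
  ring

theorem bar_ibp_bW (u : V → ℝ) (hm : AEStronglyMeasurable u volume)
    (hu : Integrable (fun v => u v / ang v)) (G : V → ℝ) (hG : ContDiff ℝ 1 G)
    (hc : HasCompactSupport G) :
    ∑ j : Fin 3, ∫ v, bbar u j v * pd j G v = ∫ v, u v * G v := by
  have hj : ∀ j : Fin 3, _ := fun j => bars_fubini (bK j) (pd j G) u
    (bars_int_bW u hm hu (pd j G) (continuous_pd hG j) (compact_pd hc j) j)
  unfold bbar
  rw [Finset.sum_congr rfl fun j _ => (hj j).1, ← integral_finsetSum _ fun j _ => (hj j).2]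
  refine integral_congr_ae (Eventually.of_forall fun w => ?_)
  simp only []
  rw [← Finset.mul_sum, ibp_bK G hG hc w]

end Pool.Agent.Landau
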