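import Pool.Agent.Landau.Defs2
import Pool.Agent.Landau.KInt
import Pool.Agent.Landau.KBd
import Pool.Agent.Landau.Chi

/-!
# LandauG, module WDefs: solutions which are only integrable against `1 / √(1 + ‖v‖²)`

`ang v = √(1 + ‖v‖²)`, `Clw` the class of densities of the problem (smooth, values in `[0, 1]`,
`g / ang` integrable), `Kw g = ∫ g / ang`, `SolW` the solutions in this class on `(-∞, 0]`.
-/

set_option autoImplicit false

namespace Pool.Agent.Landau

open MeasureTheory Set Filter Topology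

/-- the weight `√(1 + ‖v‖²)` -/
noncomputable def ang (v : V) : ℝ := Real.sqrt (1 + ‖v‖ ^ 2)

/-- the densities of the problem -/
structure Clw (g : V → ℝ) : Prop where
  smooth : ContDiff ℝ (⊤ : ℕ∞) g
  nonneg : ∀ v, 0 ≤ g v
  le_one : ∀ v, g v ≤ 1
  int : Integrable (fun v => g v / ang v)

/-- weighted mass -/
noncomputable def Kw (g : V → ℝ) : ℝ := ∫ v, g v / ang v

/-- the solutions of the problem -/
structure SolW (f : ℝ → V → ℝ) : Prop where
  cont : ContinuousOn (fun p : ℝ × V => f p.1 p.2) (Iic (0 : ℝ) ×ˢ univ)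
  smooth : ContDiffOn ℝ (⊤ : ℕ∞) (fun p : ℝ × V => f p.1 p.2) (Iio (0 : ℝ) ×ˢ univ)
  cls : ∀ t ≤ 0, Clw (f t)
  pde : ∀ t < 0, ∀ v, HasDerivAt (fun s => f s v) (QL (f t) v) t

/-- the test function `chi R / ang` -/
noncomputable def phiW (R : ℝ) (v : V) : ℝ := chi R v / ang v

theorem ang_sq (v : V) : ang v ^ 2 = 1 + ‖v‖ ^ 2 := Real.sq_sqrt (by positivity)

theorem ang_pos (v : V) : 0 < ang v := Real.sqrt_pos.2 (by positivity)

theorem one_le_ang (v : V) : 1 ≤ ang v := by
  have h := ang_sq v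
  have h0 := ang_pos v
  nlinarith [sq_nonneg ‖v‖]

theorem norm_le_ang (v : V) : ‖v‖ ≤ ang v :=
  Real.le_sqrt_of_sq_le (by linarith)

theorem ang_le (v : V) : ang v ≤ 1 + ‖v‖ := by
  unfold ang
  rw [Real.sqrt_le_left (by positivity)]
  nlinarith [norm_nonneg v]

theorem ang_le_of_norm_le {R : ℝ} (hR : 1 ≤ R) {v : V} (h : ‖v‖ ≤ R) : ang v ≤ 2 * R := by
  have := ang_le v
  linarith

theorem ang_smooth : ContDiff ℝ (⊤ : ℕ∞) ang := by
  unfold ang
  refine ContDiff.sqrt (contDiff_const.add (contDiff_norm_sq ℝ)) (fun z => ?_)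
  positivity

theorem continuous_ang : Continuous ang := ang_smooth.continuous

/-- `ang` is Lipschitz with constant `1` -/
theorem ang_lip (v w : V) : ang v ≤ ang w + ‖v - w‖ := by
  have h0 := ang_pos w
  have h1 := norm_nonneg (v - w)
  have h2 : ‖v‖ ≤ ‖w‖ + ‖v - w‖ := by
    have := norm_add_le w (v - w)
    rwa [add_sub_cancel] at this
  have h3 := norm_le_ang w
  have h4 : ang v ^ 2 ≤ (ang w + ‖v - w‖) ^ 2 := by
    rw [ang_sq]
    have h5 : ‖v‖ ^ 2 ≤ (‖w‖ + ‖v - w‖) ^ 2 :=
      pow_le_pow_left₀ (norm_nonneg _) h2 2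
    nlinarith [ang_sq w]
  exact le_of_sq_le_sq' h4 (by positivity)
where
  le_of_sq_le_sq' {a b : ℝ} (h : a ^ 2 ≤ b ^ 2) (hb : 0 ≤ b) : a ≤ b := by
    by_contra hc
    push Not at hc
    nlinarith

namespace Clw

variable {g : V → ℝ}

theorem cont (hg : Clw g) : Continuous g := hg.smooth.continuous

theorem Kw_nonneg (hg : Clw g) : 0 ≤ Kw g :=
  integral_nonneg fun v => div_nonneg (hg.nonneg v) (ang_pos v).le

theorem abs_le_one (hg : Clw g) (v : V) : |g v| ≤ 1 := by
  rw [abs_of_nonneg (hg.nonneg v)]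
  exact hg.le_one v

theorem int_ball (hg : Clw g) (R : ℝ) : IntegrableOn g {v : V | ‖v‖ ≤ R} := by
  have h : {v : V | ‖v‖ ≤ R} = Metric.closedBall 0 R := by
    ext v
    simp
  rw [h]
  exact hg.cont.continuousOn.integrableOn_compact (isCompact_closedBall _ _)

theorem int_ball_le (hg : Clw g) {R : ℝ} (hR : 1 ≤ R) :
    ∫ v in {v : V | ‖v‖ ≤ R}, g v ≤ 2 * R * Kw g := by
  have hm : MeasurableSet {v : V | ‖v‖ ≤ R} := measurableSet_le measurable_norm measurable_const
  have hi : Integrable (fun v => 2 * R * (g v / ang v)) := hg.int.const_mul _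
  calc ∫ v in {v : V | ‖v‖ ≤ R}, g v ≤ ∫ v in {v : V | ‖v‖ ≤ R}, 2 * R * (g v / ang v) := by
        refine setIntegral_mono_on (hg.int_ball R) hi.integrableOn hm (fun v hv => ?_)
        have h1 := ang_le_of_norm_le hR (v := v) hv
        have h2 := ang_pos v
        have h3 : g v = ang v * (g v / ang v) := by field_simp
        have h4 : 0 ≤ g v / ang v := div_nonneg (hg.nonneg v) h2.le
        calc g v = ang v * (g v / ang v) := h3
          _ ≤ 2 * R * (g v / ang v) := mul_le_mul_of_nonneg_right h1 h4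
    _ ≤ ∫ v, 2 * R * (g v / ang v) := setIntegral_le_integral hi
        (Eventually.of_forall fun v => mul_nonneg (by linarith)
          (div_nonneg (hg.nonneg v) (ang_pos v).le))
    _ = 2 * R * Kw g := by rw [integral_const_mul]; rfl

end Clw

end Pool.Agent.Landau
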